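import Pool.Agent.W_28d874_h69.MDefs

namespace Pool.Agent.W_28d874_h69

open Metric Set Filter Topology Pool.Agent.W_28d874_h30

variable {d : ℕ}

/-- Uniform covering. Otherwise for every `k` there are a maximal `P k` and `p k` with
`2 - 1/(k+1) < dist x (p k)` for all `x ∈ P k`. By `saturated` choose `x k ∈ P k` with
`dist (x k) (p k) < 2`, let `Q k = (fun z => z - x k) '' P k` (`isPacking_translate`), which contains
`0`; `Q k` is full (`HasNear.translate` and `hasNear_of_ncard`, `near_of_maximal`), so `limSet Q` is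
maximal (`limSet_maximal`). The points `p k - x k` lie in the compact ball of radius `2`; let `p` be
their limit along the hyperfilter. By `saturated` for `limSet Q` there is `z ∈ limSet Q` with
`dist z p < 2`; `z` is the limit of `y k ∈ Q k` with `dist (y k) (p k - x k) > 2 - 1/(k+1)`, so
`dist z p ≥ 2`, a contradiction. -/
lemma unifCover (hd : 1 ≤ d) : ∃ ε : ℝ, 0 < ε ∧ ∀ P : Set (E d), IsMaximal P → ∀ p : E d, ∃ x ∈ P,
    dist x p ≤ 2 - ε := by
  by_contra hcon
  push Not at hcon
  choose P hP p hp using fun k : ℕ => hcon (1 / ((k : ℝ) + 1)) (by positivity)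
  choose x hx hxp using fun k => saturated (hP k) (p k)
  set Q : ℕ → Set (E d) := fun k => (fun z => z - x k) '' P k with hQ
  have hQp : ∀ k, IsPacking (Q k) := fun k => isPacking_translate (hP k).2.1 (x k)
  have h0 : ∀ k, (0 : E d) ∈ Q k := fun k => ⟨x k, hx k, sub_self _⟩
  have hN : ∀ k, ∀ y ∈ Q k, dist y 0 ≤ k →
      HasNear (Q k) y (1 / ((k : ℝ) + 1)) (newton d) := by
    rintro k _ ⟨z, hz, rfl⟩ _
    have h1 : HasNear (P k) z 0 (newton d) := hasNear_of_ncard (hP k).2.1 (by
      simp only [add_zero]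
      exact (near_of_maximal (hP k) hz).ge)
    exact (h1.mono (by positivity) le_rfl).translate (x k)
  have hlim : IsMaximal (limSet Q) := limSet_maximal hQp h0 hN
  set q : ℕ → E d := fun k => p k - x k with hq
  have hqb : ∀ k, q k ∈ closedBall (0 : E d) 2 := by
    intro k
    rw [mem_closedBall, dist_zero_right]
    show ‖p k - x k‖ ≤ 2
    rw [← dist_eq_norm, dist_comm]
    exact (hxp k).le
  obtain ⟨p0, -, hp0⟩ := (isCompact_closedBall (0 : E d) 2).ultrafilter_le_nhds
    ((hyperfilter ℕ).map q) (by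
      rw [le_principal_iff, Ultrafilter.coe_map, Filter.mem_map]
      exact Filter.mem_of_superset univ_mem fun k _ => hqb k)
  have hp0' : Tendsto q (hyperfilter ℕ : Filter ℕ) (𝓝 p0) := hp0
  obtain ⟨z, ⟨y, hy, hyz⟩, hzp⟩ := saturated hlim p0
  have ht : Tendsto (fun k => dist (y k) (q k)) (hyperfilter ℕ : Filter ℕ) (𝓝 (dist z p0)) :=
    hyz.dist hp0'
  have hge : ∀ k : ℕ, 4 - (2 + 1 / ((k : ℝ) + 1)) ≤ dist (y k) (q k) := by
    intro k
    obtain ⟨w, hw, hwy⟩ := hy k
    have h1 := hp k w hw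
    have h2 : dist (y k) (q k) = dist w (p k) := by
      rw [← hwy]
      exact dist_sub_right w (p k) (x k)
    rw [h2]
    linarith
  have h3 : Tendsto (fun k : ℕ => (4 : ℝ) - (2 + 1 / ((k : ℝ) + 1)))
      (hyperfilter ℕ : Filter ℕ) (𝓝 (4 - 2)) := tendsto_inv_hyper.const_sub 4
  have h4 : (4 : ℝ) - 2 ≤ dist z p0 :=
    le_of_tendsto_of_tendsto h3 ht (Filter.Eventually.of_forall hge)
  linarith

end Pool.Agent.W_28d874_h69
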