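import Pool.Agent.W_28d874_h69.MDefs

namespace Pool.Agent.W_28d874_h69

open Metric Set Filter Topology Pool.Agent.W_28d874_h30

variable {d : ℕ}

/-- The balls touching `x` in a maximal packing number at least `(2/√3)^d`. By `exists_dir` for every
unit vector `u` there is a touching `y` with `⟪y - x, u⟫ > 1`. For `p = r u`, `0 ≤ r ≤ 1`,
`‖p - (y - x)/4‖² = r² - r ⟪u, y - x⟫ / 2 + 1/4 ≤ r² - r/2 + 1/4 ≤ 3/4`. So the unit ball is covered
by the `newton d` closed balls of radius `√3/2` about the points `(y - x)/4`; compare volumes. -/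
lemma newton_ge (hd : 1 ≤ d) {P : Set (E d)} (hP : IsMaximal P) :
    (2 / Real.sqrt 3) ^ d ≤ (newton d : ℝ) := by
  classical
  obtain ⟨x, hx⟩ := hP.1
  set N := {z ∈ P | z ≠ x ∧ dist x z ≤ 2} with hN
  have hNcard : N.ncard = newton d := near_of_maximal hP hx
  have hfin : N.Finite := (finite_of_bounded hP.2.1 x 2).subset fun z hz => by
    refine ⟨hz.1, ?_⟩
    rw [dist_comm]
    exact hz.2.2
  have h3 : 0 < Real.sqrt 3 := Real.sqrt_pos.mpr (by norm_num)
  have h3s : Real.sqrt 3 ^ 2 = 3 := Real.sq_sqrt (by norm_num)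
  set ρ : ℝ := Real.sqrt 3 / 2 with hρ
  have hρ0 : 0 < ρ := by positivity
  have hρ2 : ρ ^ 2 = 3 / 4 := by rw [hρ, div_pow, h3s]; norm_num
  have hdir : ∀ p : E d, ∃ u : E d, ‖u‖ = 1 ∧ p = ‖p‖ • u := by
    intro p
    by_cases hp : p = 0
    · refine ⟨EuclideanSpace.single (⟨0, hd⟩ : Fin d) (1 : ℝ), by simp, ?_⟩
      rw [hp, norm_zero, zero_smul]
    · refine ⟨(‖p‖)⁻¹ • p, ?_, ?_⟩
      · rw [norm_smul, norm_inv, norm_norm, inv_mul_cancel₀ (norm_ne_zero_iff.mpr hp)]
      · rw [smul_smul, mul_inv_cancel₀ (norm_ne_zero_iff.mpr hp), one_smul]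
  have hsub : ball (0 : E d) 1 ⊆ ⋃ y ∈ hfin.toFinset, closedBall ((1 / 4 : ℝ) • (y - x)) ρ := by
    intro p hp
    rw [mem_ball_zero_iff] at hp
    obtain ⟨u, hu, hpu⟩ := hdir p
    obtain ⟨y, hy, hxy, hin⟩ := exists_dir hP hx hu
    rw [mem_iUnion₂]
    refine ⟨y, ?_, ?_⟩
    · rw [Set.Finite.mem_toFinset]
      refine ⟨hy, ?_, hxy.le⟩
      rintro rfl
      rw [dist_self] at hxy
      norm_num at hxy
    · rw [mem_closedBall, dist_eq_norm]
      have hr0 := norm_nonneg p
      set r : ℝ := ‖p‖ with hr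
      have hyx : ‖y - x‖ = 2 := by rw [← dist_eq_norm, dist_comm]; exact hxy
      have hsq : ‖p - (1 / 4 : ℝ) • (y - x)‖ ^ 2 ≤ ρ ^ 2 := by
        rw [@norm_sub_sq_real, ← hr, norm_smul, hyx, inner_smul_right, hρ2]
        have h1 : inner ℝ p (y - x) = r * inner ℝ (y - x) u := by
          conv_lhs => rw [hpu]
          rw [inner_smul_left, real_inner_comm]
          simp
        rw [h1]
        have h2 : r ≤ r * inner ℝ (y - x) u := by
          have := mul_le_mul_of_nonneg_left hin.le hr0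
          linarith
        have h4 : ‖(1 / 4 : ℝ)‖ = 1 / 4 := by norm_num
        rw [h4]
        nlinarith
      exact (abs_le_of_sq_le_sq' hsq hρ0.le).2
  have hvol : MeasureTheory.volume (ball (0 : E d) 1) ≤
      (newton d : ENNReal) * (ENNReal.ofReal (ρ ^ d) * MeasureTheory.volume (ball (0 : E d) 1)) := by
    refine (MeasureTheory.measure_mono hsub).trans ?_
    refine (MeasureTheory.measure_biUnion_finset_le _ _).trans ?_
    have h5 : ∀ y ∈ hfin.toFinset, MeasureTheory.volume (closedBall ((1 / 4 : ℝ) • (y - x)) ρ) =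
        ENNReal.ofReal (ρ ^ d) * MeasureTheory.volume (ball (0 : E d) 1) := by
      intro y _
      have := MeasureTheory.Measure.addHaar_closedBall (μ := MeasureTheory.volume)
        ((1 / 4 : ℝ) • (y - x)) hρ0.le
      rw [this]
      simp
    rw [Finset.sum_congr rfl h5, Finset.sum_const, nsmul_eq_mul, ← hNcard,
      Set.ncard_eq_toFinset_card N hfin]
  rw [← mul_assoc] at hvol
  have h6 : (1 : ENNReal) ≤ (newton d : ENNReal) * ENNReal.ofReal (ρ ^ d) := by
    have h7 : 1 * MeasureTheory.volume (ball (0 : E d) 1) ≤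
        (newton d : ENNReal) * ENNReal.ofReal (ρ ^ d) * MeasureTheory.volume (ball (0 : E d) 1) := by
      rw [one_mul]; exact hvol
    exact (ENNReal.mul_le_mul_iff_left vol_ball_ne_zero vol_ball_ne_top).1 h7
  have h8 : (1 : ℝ) ≤ newton d * ρ ^ d := by
    have h9 : (newton d : ENNReal) * ENNReal.ofReal (ρ ^ d) =
        ENNReal.ofReal (newton d * ρ ^ d) := by
      rw [ENNReal.ofReal_mul (by positivity)]
      simp
    rw [h9, ← ENNReal.ofReal_one, ENNReal.ofReal_le_ofReal_iff (by positivity)] at h6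
    exact h6
  have h10 : (2 / Real.sqrt 3) ^ d * ρ ^ d = 1 := by
    rw [← mul_pow, hρ]
    have : 2 / Real.sqrt 3 * (Real.sqrt 3 / 2) = 1 := by field_simp
    rw [this, one_pow]
  have hpos : 0 < ρ ^ d := by positivity
  have h11 : (2 / Real.sqrt 3) ^ d * ρ ^ d ≤ newton d * ρ ^ d := by rw [h10]; exact h8
  exact le_of_mul_le_mul_right h11 hpos

end Pool.Agent.W_28d874_h69
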