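import Pool.Agent.W_28d874_h69.MDefs

namespace Pool.Agent.W_28d874_h69

open Metric Set Filter Topology Pool.Agent.W_28d874_h30

variable {d : ℕ}

/-- Few distances. Let `F` be a finite set of points of the sphere of radius `2` about `x` and `D` a
finite set of reals containing all distances between different points of `F`, `0 ∉ D`. For `y ∈ F` let
`f y z = ∏ δ ∈ D, (8 - 2 ⟪z - x, y - x⟫ - δ²)`; for `z ∈ F` the factor is `‖z - y‖² - δ²`, so
`f y z = 0` for `y ≠ z ∈ F` and `f y y ≠ 0`. So the functions `f y` are linearly independent. Each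
`f y` is a product of `s = D.card` affine functions of `z`, so it lies in the span of the functions
`z ↦ ∏ a ∈ m, ℓ a z`, `m : Sym (Fin (d + 1)) s`, where `ℓ 0 = 1` and `ℓ (i + 1) z = z i`; there are
`(d + s).choose s` of these (`Sym.card_sym_eq_choose`). -/
lemma card_le_choose (x : E d) (F : Finset (E d)) (hF : ∀ y ∈ F, dist x y = 2) (D : Finset ℝ)
    (h0 : (0 : ℝ) ∉ D) (hD0 : ∀ δ ∈ D, 0 ≤ δ) (hD : ∀ y ∈ F, ∀ z ∈ F, y ≠ z → dist y z ∈ D) :
    F.card ≤ (d + D.card).choose D.card := by
  classical
  let l : Fin (d + 1) → E d → ℝ := fun a z => Fin.cases (1 : ℝ) (fun i => z i) a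
  let g : Sym (Fin (d + 1)) D.card → (E d → ℝ) := fun m z => (m.1.map (fun a => l a z)).prod
  let f : E d → E d → ℝ := fun y z => ∏ δ ∈ D, (8 - 2 * inner ℝ (z - x) (y - x) - δ ^ 2)
  -- values
  have hval : ∀ y ∈ F, ∀ z ∈ F, 8 - 2 * inner ℝ (z - x) (y - x) = dist y z ^ 2 := by
    intro y hy z hz
    have h1 : ‖z - x‖ = 2 := by
      rw [← dist_eq_norm, dist_comm]; exact hF z hz
    have h2 : ‖y - x‖ = 2 := by
      rw [← dist_eq_norm, dist_comm]; exact hF y hy
    have h3 : dist y z = ‖(z - x) - (y - x)‖ := by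
      rw [dist_comm, dist_eq_norm]; congr 1; abel
    rw [h3, @norm_sub_sq_real, h1, h2]
    ring
  have hdiag : ∀ y ∈ F, f y y ≠ 0 := by
    intro y hy
    refine Finset.prod_ne_zero_iff.2 fun δ hδ => ?_
    rw [hval y hy y hy, dist_self]
    have : δ ≠ 0 := fun h => h0 (h ▸ hδ)
    intro h
    apply this
    have : δ ^ 2 = 0 := by linarith
    exact pow_eq_zero_iff (two_ne_zero) |>.1 this
  have hoff : ∀ y ∈ F, ∀ z ∈ F, y ≠ z → f y z = 0 := by
    intro y hy z hz hyz
    refine Finset.prod_eq_zero (hD y hy z hz hyz) ?_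
    rw [hval y hy z hz]; ring
  -- membership
  have hmem : ∀ y, f y ∈ Submodule.span ℝ (Set.range g) := by
    intro y
    -- coefficients
    obtain ⟨c, hc⟩ : ∃ c : ℝ → Fin (d + 1) → ℝ, ∀ (δ : ℝ) (z : E d),
        8 - 2 * inner ℝ (z - x) (y - x) - δ ^ 2 = ∑ a, c δ a * l a z := by
      refine ⟨fun δ a => Fin.cases (8 + 2 * inner ℝ x (y - x) - δ ^ 2)
        (fun i => - (2 * (y - x) i)) a, fun δ z => ?_⟩
      rw [Fin.sum_univ_succ]
      have h4 : inner ℝ z (y - x) = ∑ i, (y - x) i * z i := by
        rw [PiLp.inner_apply]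
        rfl
      simp only [l, Fin.cases_zero, Fin.cases_succ, mul_one]
      rw [inner_sub_left, h4]
      have h5 : ∑ i : Fin d, -(2 * (y - x) i) * z i = - (2 * ∑ i, (y - x) i * z i) := by
        rw [Finset.mul_sum, ← Finset.sum_neg_distrib]
        exact Finset.sum_congr rfl fun i _ => by ring
      rw [h5]
      ring
    have hfy : f y = ∑ p : D → Fin (d + 1), (∏ δ : D, c δ (p δ)) •
        g ⟨(Finset.univ : Finset D).val.map p, by
          rw [Multiset.card_map]; exact (Finset.card_univ (α := D)).trans (Fintype.card_coe D)⟩ := by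
      funext z
      have e1 : f y z = ∏ δ : D, ∑ a, c δ a * l a z := by
        simp only [f]
        rw [← Finset.prod_coe_sort]
        exact Finset.prod_congr rfl fun δ _ => hc _ _
      rw [e1, Finset.prod_univ_sum, Finset.sum_apply]
      simp only [Fintype.piFinset_univ]
      refine Finset.sum_congr rfl fun p _ => ?_
      rw [Finset.prod_mul_distrib, Pi.smul_apply, smul_eq_mul]
      congr 1
      simp only [g, Multiset.map_map]
      rfl
    rw [hfy]
    exact Submodule.sum_mem _ fun p _ => Submodule.smul_mem _ _ (Submodule.subset_span ⟨_, rfl⟩)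
  have : FiniteDimensional ℝ (Submodule.span ℝ (Set.range g)) :=
    FiniteDimensional.span_of_finite ℝ (Set.finite_range g)
  have hli : LinearIndependent ℝ
      (fun y : F => (⟨f y, hmem y⟩ : Submodule.span ℝ (Set.range g))) := by
    rw [Fintype.linearIndependent_iff]
    intro a ha z
    have h6 := congrArg (fun v : Submodule.span ℝ (Set.range g) => (v : E d → ℝ) (z : E d)) ha
    simp only [Submodule.coe_sum, Submodule.coe_smul, Finset.sum_apply, Pi.smul_apply, smul_eq_mul,
      ZeroMemClass.coe_zero, Pi.zero_apply] at h6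
    rw [Finset.sum_eq_single z] at h6
    · exact (mul_eq_zero.1 h6).resolve_right (hdiag z z.2)
    · intro y _ hyz
      rw [hoff y y.2 z z.2 (fun h => hyz (Subtype.ext h)), mul_zero]
    · intro h; exact absurd (Finset.mem_univ _) h
  have h7 := hli.fintype_card_le_finrank
  have h8 : Module.finrank ℝ (Submodule.span ℝ (Set.range g)) ≤ Fintype.card (Sym (Fin (d + 1)) D.card) :=
    finrank_range_le_card g
  rw [Sym.card_sym_eq_choose, Fintype.card_fin] at h8
  have h9 : d + 1 + D.card - 1 = d + D.card := by omega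
  rw [h9] at h8
  simpa using h7.trans h8

end Pool.Agent.W_28d874_h69
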