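import Pool.Agent.W_28d874_h69.Dist
import Pool.Agent.W_28d874_h69.DistB

namespace Pool.Agent.W_28d874_h69

open Metric Set Filter Topology Pool.Agent.W_28d874_h30

variable {d : ℕ}

/-- The neighbours of a ball of a maximal packing determine many distances. -/
lemma many_distances (hd : 1 ≤ d) {P : Set (E d)} (hP : IsMaximal P) {x : E d} (hx : x ∈ P) (s : ℕ)
    (hs : {δ : ℝ | ∃ y ∈ P, ∃ z ∈ P, Touch x y ∧ Touch x z ∧ y ≠ z ∧ δ = dist y z}.ncard ≤ s) :
    (2 / Real.sqrt 3) ^ d ≤ ((d + s).choose s : ℝ) := by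
  have hpack := isPacking_iff.1 hP.2.1
  have hfin : {y ∈ P | Touch x y}.Finite := by
    refine (finite_of_bounded hP.2.1 x 2).subset ?_
    rintro y ⟨hy, hT⟩
    have h1 := (touch_iff.1 hT).2
    exact ⟨hy, by rw [dist_comm]; exact h1⟩
  set F : Finset (E d) := hfin.toFinset with hF
  have hFm : ∀ y, y ∈ F ↔ y ∈ P ∧ Touch x y := fun y => hfin.mem_toFinset
  have hcard : F.card = newton d := by
    rw [hF, ← Set.ncard_eq_toFinset_card _ hfin]
    exact hP.2.2 x hx
  set DS : Set ℝ := {δ : ℝ | ∃ y ∈ P, ∃ z ∈ P, Touch x y ∧ Touch x z ∧ y ≠ z ∧ δ = dist y z}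
    with hDS
  have hDfin : DS.Finite := by
    refine ((F ×ˢ F).finite_toSet.image (fun p : E d × E d => dist p.1 p.2)).subset ?_
    rintro δ ⟨y, hy, z, hz, h1, h2, _, rfl⟩
    refine ⟨(y, z), ?_, rfl⟩
    rw [Finset.mem_coe, Finset.mem_product]
    exact ⟨(hFm y).2 ⟨hy, h1⟩, (hFm z).2 ⟨hz, h2⟩⟩
  have hDcard : hDfin.toFinset.card ≤ s := by
    rw [← Set.ncard_eq_toFinset_card _ hDfin]
    exact hs
  have h1 : F.card ≤ (d + hDfin.toFinset.card).choose hDfin.toFinset.card := by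
    refine card_le_choose x F ?_ hDfin.toFinset ?_ ?_ ?_
    · intro y hy
      have h2 := (hFm y).1 hy
      have h3 := touch_iff.1 h2.2
      exact le_antisymm h3.2 (hpack x hx y h2.1 h3.1)
    · rw [hDfin.mem_toFinset]
      rintro ⟨y, hy, z, hz, _, _, hyz, h0⟩
      exact hyz (dist_eq_zero.1 h0.symm)
    · intro δ hδ
      rw [hDfin.mem_toFinset] at hδ
      obtain ⟨y, _, z, _, _, _, _, rfl⟩ := hδ
      exact dist_nonneg
    · intro y hy z hz hyz
      rw [hDfin.mem_toFinset]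
      have h2 := (hFm y).1 hy
      have h3 := (hFm z).1 hz
      exact ⟨y, h2.1, z, h3.1, h2.2, h3.2, hyz, rfl⟩
  have h2 : (d + hDfin.toFinset.card).choose hDfin.toFinset.card ≤ (d + s).choose s := by
    rw [← Nat.choose_symm_add, ← Nat.choose_symm_add]
    exact Nat.choose_le_choose d (by omega)
  have h3 : (newton d : ℝ) ≤ ((d + s).choose s : ℝ) := by
    rw [← hcard]
    exact_mod_cast h1.trans h2
  exact (newton_ge hd hP).trans h3

end Pool.Agent.W_28d874_h69
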