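import Pool.Agent.W_28d874_h69.DistC

namespace Pool.Agent.W_28d874_h69

open Metric Set Filter Topology Pool.Agent.W_28d874_h30

variable {d : ℕ}

private lemma choose_bound (d s : ℕ) : ((d + s).choose s : ℝ) ≤ 33 ^ s * (33 / 32 : ℝ) ^ d := by
  have h : ((1 / 33 : ℝ) + 32 / 33) ^ (d + s) = ∑ m ∈ Finset.range (d + s + 1),
      (1 / 33 : ℝ) ^ m * (32 / 33) ^ (d + s - m) * ((d + s).choose m : ℝ) := by
    rw [add_pow]
  have hle : (1 / 33 : ℝ) ^ s * (32 / 33) ^ (d + s - s) * ((d + s).choose s : ℝ) ≤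
      ∑ m ∈ Finset.range (d + s + 1),
      (1 / 33 : ℝ) ^ m * (32 / 33) ^ (d + s - m) * ((d + s).choose m : ℝ) :=
    Finset.single_le_sum (f := fun m => (1 / 33 : ℝ) ^ m * (32 / 33) ^ (d + s - m) *
      ((d + s).choose m : ℝ)) (fun i _ => by positivity)
      (Finset.mem_range.2 (by omega : s < d + s + 1))
  rw [← h] at hle
  have h1 : ((1 / 33 : ℝ) + 32 / 33) = 1 := by norm_num
  rw [h1, one_pow, Nat.add_sub_cancel] at hle
  have h3 : (33 : ℝ) ^ s * (33 / 32 : ℝ) ^ d *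
      ((1 / 33 : ℝ) ^ s * (32 / 33) ^ d * ((d + s).choose s : ℝ)) = ((d + s).choose s : ℝ) := by
    have e1 : (33 : ℝ) ^ s * (1 / 33 : ℝ) ^ s = 1 := by rw [← mul_pow]; norm_num
    have e2 : (33 / 32 : ℝ) ^ d * (32 / 33 : ℝ) ^ d = 1 := by rw [← mul_pow]; norm_num
    calc _ = ((33 : ℝ) ^ s * (1 / 33 : ℝ) ^ s) * ((33 / 32 : ℝ) ^ d * (32 / 33 : ℝ) ^ d) *
        ((d + s).choose s : ℝ) := by ring
      _ = _ := by rw [e1, e2]; ring
  rw [← h3]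
  calc _ ≤ (33 : ℝ) ^ s * (33 / 32 : ℝ) ^ d * 1 := by gcongr
    _ = _ := by ring

/-- The neighbours of a ball of a maximal packing of `E^d` determine more than `d/32` distances. -/
lemma linear_of_choose (hd : 1 ≤ d) {s : ℕ}
    (h : (2 / Real.sqrt 3) ^ d ≤ ((d + s).choose s : ℝ)) : d < 32 * s := by
  by_contra hcon
  push Not at hcon
  have h1 := h.trans (choose_bound d s)
  have h0 : (0 : ℝ) ≤ (2 / Real.sqrt 3) ^ d := by positivity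
  have h2 : ((2 / Real.sqrt 3) ^ d) ^ 32 ≤ ((33 : ℝ) ^ s * (33 / 32 : ℝ) ^ d) ^ 32 :=
    pow_le_pow_left₀ h0 h1 32
  have h3 : ((2 / Real.sqrt 3) ^ d) ^ 32 = ((4 / 3 : ℝ) ^ 16) ^ d := by
    rw [← pow_mul, mul_comm d 32, pow_mul]
    congr 1
    have : (2 / Real.sqrt 3) ^ 2 = (4 / 3 : ℝ) := by
      rw [div_pow, Real.sq_sqrt (by norm_num)]; norm_num
    calc (2 / Real.sqrt 3) ^ 32 = ((2 / Real.sqrt 3) ^ 2) ^ 16 := by rw [← pow_mul]
      _ = _ := by rw [this]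
  have h4 : ((33 : ℝ) ^ s * (33 / 32 : ℝ) ^ d) ^ 32 ≤ (33 * (33 / 32 : ℝ) ^ 32) ^ d := by
    have e1 : ((33 : ℝ) ^ s * (33 / 32 : ℝ) ^ d) ^ 32 = 33 ^ (32 * s) * ((33 / 32 : ℝ) ^ 32) ^ d := by
      rw [mul_pow, ← pow_mul, ← pow_mul, ← pow_mul, mul_comm s 32, mul_comm d 32]
    rw [e1, mul_pow]
    gcongr
    norm_num
  rw [h3] at h2
  have h5 := h2.trans h4
  have h6 : (33 * (33 / 32 : ℝ) ^ 32) < (4 / 3 : ℝ) ^ 16 := by norm_num
  have h7 : (33 * (33 / 32 : ℝ) ^ 32) ^ d < ((4 / 3 : ℝ) ^ 16) ^ d :=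
    pow_lt_pow_left₀ h6 (by positivity) (by omega)
  linarith

end Pool.Agent.W_28d874_h69
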