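import Pool.Agent.W_28d874_h69.DistD
import Pool.Agent.W_28d874_h30.Iso

namespace Pool.Agent.W_28d874_h69

open Metric Set Filter Topology Pool.Agent.W_28d874_h30

variable {d : ℕ}

/-- The balls touching a ball `x` which touches `newton d` balls number at least `(2/√3)^d`. By `exists_dir_of_full` for every
unit vector `u` there is a touching `y` with `⟪y - x, u⟫ > 1`. For `p = r u`, `0 ≤ r ≤ 1`,
`‖p - (y - x)/4‖² = r² - r ⟪u, y - x⟫ / 2 + 1/4 ≤ r² - r/2 + 1/4 ≤ 3/4`. So the unit ball is covered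
by the `newton d` closed balls of radius `√3/2` about the points `(y - x)/4`; compare volumes. -/
lemma newton_ge_of_full (hd : 1 ≤ d) {P : Set (E d)} (hP : IsPacking P) {x : E d} (hx : x ∈ P)
    (hfull : {y ∈ P | Touch x y}.ncard = newton d) :
    (2 / Real.sqrt 3) ^ d ≤ (newton d : ℝ) := by
  classical
  set N := {z ∈ P | z ≠ x ∧ dist x z ≤ 2} with hN
  have hNcard : N.ncard = newton d := by
    rw [← hfull, hN]
    congr 1
    ext u
    simp only [mem_ofPred_eq, touch_iff, ne_comm]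
  have hfin : N.Finite := (finite_of_bounded hP x 2).subset fun z hz => by
    refine ⟨hz.1, ?_⟩
    rw [dist_comm]
    exact hz.2.2
  have h3 : 0 < Real.sqrt 3 := Real.sqrt_pos.mpr (by norm_num)
  have h3s : Real.sqrt 3 ^ 2 = 3 := Real.sq_sqrt (by norm_num)
  set ρ : ℝ := Real.sqrt 3 / 2 with hρ
  have hρ0 : 0 < ρ := by positivity
  have hρ2 : ρ ^ 2 = 3 / 4 := by rw [hρ, div_pow, h3s]; norm_num
  have hdir : ∀ p : E d, ∃ u : E d, ‖u‖ = 1 ∧ p = ‖p‖ • u := by
    intro p
    by_cases hp : p = 0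
    · refine ⟨EuclideanSpace.single (⟨0, hd⟩ : Fin d) (1 : ℝ), by simp, ?_⟩
      rw [hp, norm_zero, zero_smul]
    · refine ⟨(‖p‖)⁻¹ • p, ?_, ?_⟩
      · rw [norm_smul, norm_inv, norm_norm, inv_mul_cancel₀ (norm_ne_zero_iff.mpr hp)]
      · rw [smul_smul, mul_inv_cancel₀ (norm_ne_zero_iff.mpr hp), one_smul]
  have hsub : ball (0 : E d) 1 ⊆ ⋃ y ∈ hfin.toFinset, closedBall ((1 / 4 : ℝ) • (y - x)) ρ := by
    intro p hp
    rw [mem_ball_zero_iff] at hp
    obtain ⟨u, hu, hpu⟩ := hdir p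
    obtain ⟨y, hy, hxy, hin⟩ := exists_dir_of_full hP hx hNcard.ge hu
    rw [mem_iUnion₂]
    refine ⟨y, ?_, ?_⟩
    · rw [Set.Finite.mem_toFinset]
      refine ⟨hy, ?_, hxy.le⟩
      rintro rfl
      rw [dist_self] at hxy
      norm_num at hxy
    · rw [mem_closedBall, dist_eq_norm]
      have hr0 := norm_nonneg p
      set r : ℝ := ‖p‖ with hr
      have hyx : ‖y - x‖ = 2 := by rw [← dist_eq_norm, dist_comm]; exact hxy
      have hsq : ‖p - (1 / 4 : ℝ) • (y - x)‖ ^ 2 ≤ ρ ^ 2 := by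
        rw [@norm_sub_sq_real, ← hr, norm_smul, hyx, inner_smul_right, hρ2]
        have h1 : inner ℝ p (y - x) = r * inner ℝ (y - x) u := by
          conv_lhs => rw [hpu]
          rw [inner_smul_left, real_inner_comm]
          simp
        rw [h1]
        have h2 : r ≤ r * inner ℝ (y - x) u := by
          have := mul_le_mul_of_nonneg_left hin.le hr0
          linarith
        have h4 : ‖(1 / 4 : ℝ)‖ = 1 / 4 := by norm_num
        rw [h4]
        nlinarith
      exact (abs_le_of_sq_le_sq' hsq hρ0.le).2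
  have hvol : MeasureTheory.volume (ball (0 : E d) 1) ≤
      (newton d : ENNReal) * (ENNReal.ofReal (ρ ^ d) * MeasureTheory.volume (ball (0 : E d) 1)) := by
    refine (MeasureTheory.measure_mono hsub).trans ?_
    refine (MeasureTheory.measure_biUnion_finset_le _ _).trans ?_
    have h5 : ∀ y ∈ hfin.toFinset, MeasureTheory.volume (closedBall ((1 / 4 : ℝ) • (y - x)) ρ) =
        ENNReal.ofReal (ρ ^ d) * MeasureTheory.volume (ball (0 : E d) 1) := by
      intro y _
      have := MeasureTheory.Measure.addHaar_closedBall (μ := MeasureTheory.volume)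
        ((1 / 4 : ℝ) • (y - x)) hρ0.le
      rw [this]
      simp
    rw [Finset.sum_congr rfl h5, Finset.sum_const, nsmul_eq_mul, ← hNcard,
      Set.ncard_eq_toFinset_card N hfin]
  rw [← mul_assoc] at hvol
  have h6 : (1 : ENNReal) ≤ (newton d : ENNReal) * ENNReal.ofReal (ρ ^ d) := by
    have h7 : 1 * MeasureTheory.volume (ball (0 : E d) 1) ≤
        (newton d : ENNReal) * ENNReal.ofReal (ρ ^ d) * MeasureTheory.volume (ball (0 : E d) 1) := by
      rw [one_mul]; exact hvol
    exact (ENNReal.mul_le_mul_iff_left vol_ball_ne_zero vol_ball_ne_top).1 h7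
  have h8 : (1 : ℝ) ≤ newton d * ρ ^ d := by
    have h9 : (newton d : ENNReal) * ENNReal.ofReal (ρ ^ d) =
        ENNReal.ofReal (newton d * ρ ^ d) := by
      rw [ENNReal.ofReal_mul (by positivity)]
      simp
    rw [h9, ← ENNReal.ofReal_one, ENNReal.ofReal_le_ofReal_iff (by positivity)] at h6
    exact h6
  have h10 : (2 / Real.sqrt 3) ^ d * ρ ^ d = 1 := by
    rw [← mul_pow, hρ]
    have : 2 / Real.sqrt 3 * (Real.sqrt 3 / 2) = 1 := by field_simp
    rw [this, one_pow]
  have hpos : 0 < ρ ^ d := by positivity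
  have h11 : (2 / Real.sqrt 3) ^ d * ρ ^ d ≤ newton d * ρ ^ d := by rw [h10]; exact h8
  exact le_of_mul_le_mul_right h11 hpos

/-- The neighbours of a ball with `newton d` neighbours determine many distances. -/
lemma many_distances_of_full (hd : 1 ≤ d) {P : Set (E d)} (hP : IsPacking P) {x : E d} (hx : x ∈ P)
    (hfull : {y ∈ P | Touch x y}.ncard = newton d) (s : ℕ)
    (hs : {δ : ℝ | ∃ y ∈ P, ∃ z ∈ P, Touch x y ∧ Touch x z ∧ y ≠ z ∧ δ = dist y z}.ncard ≤ s) :
    (2 / Real.sqrt 3) ^ d ≤ ((d + s).choose s : ℝ) := by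
  have hpack := isPacking_iff.1 hP
  have hfin : {y ∈ P | Touch x y}.Finite := by
    refine (finite_of_bounded hP x 2).subset ?_
    rintro y ⟨hy, hT⟩
    have h1 := (touch_iff.1 hT).2
    exact ⟨hy, by rw [dist_comm]; exact h1⟩
  set F : Finset (E d) := hfin.toFinset with hF
  have hFm : ∀ y, y ∈ F ↔ y ∈ P ∧ Touch x y := fun y => hfin.mem_toFinset
  have hcard : F.card = newton d := by
    rw [hF, ← Set.ncard_eq_toFinset_card _ hfin]
    exact hfull
  set DS : Set ℝ := {δ : ℝ | ∃ y ∈ P, ∃ z ∈ P, Touch x y ∧ Touch x z ∧ y ≠ z ∧ δ = dist y z}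
    with hDS
  have hDfin : DS.Finite := by
    refine ((F ×ˢ F).finite_toSet.image (fun p : E d × E d => dist p.1 p.2)).subset ?_
    rintro δ ⟨y, hy, z, hz, h1, h2, _, rfl⟩
    refine ⟨(y, z), ?_, rfl⟩
    rw [Finset.mem_coe, Finset.mem_product]
    exact ⟨(hFm y).2 ⟨hy, h1⟩, (hFm z).2 ⟨hz, h2⟩⟩
  have hDcard : hDfin.toFinset.card ≤ s := by
    rw [← Set.ncard_eq_toFinset_card _ hDfin]
    exact hs
  have h1 : F.card ≤ (d + hDfin.toFinset.card).choose hDfin.toFinset.card := by
    refine card_le_choose x F ?_ hDfin.toFinset ?_ ?_ ?_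
    · intro y hy
      have h2 := (hFm y).1 hy
      have h3 := touch_iff.1 h2.2
      exact le_antisymm h3.2 (hpack x hx y h2.1 h3.1)
    · rw [hDfin.mem_toFinset]
      rintro ⟨y, hy, z, hz, _, _, hyz, h0⟩
      exact hyz (dist_eq_zero.1 h0.symm)
    · intro δ hδ
      rw [hDfin.mem_toFinset] at hδ
      obtain ⟨y, _, z, _, _, _, _, rfl⟩ := hδ
      exact dist_nonneg
    · intro y hy z hz hyz
      rw [hDfin.mem_toFinset]
      have h2 := (hFm y).1 hy
      have h3 := (hFm z).1 hz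
      exact ⟨y, h2.1, z, h3.1, h2.2, h3.2, hyz, rfl⟩
  have h2 : (d + hDfin.toFinset.card).choose hDfin.toFinset.card ≤ (d + s).choose s := by
    rw [← Nat.choose_symm_add, ← Nat.choose_symm_add]
    exact Nat.choose_le_choose d (by omega)
  have h3 : (newton d : ℝ) ≤ ((d + s).choose s : ℝ) := by
    rw [← hcard]
    exact_mod_cast h1.trans h2
  exact (newton_ge_of_full hd hP hx hfull).trans h3

end Pool.Agent.W_28d874_h69
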