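import Pool.Agent.W_28d874_h30.Defs

namespace Pool.Agent.W_28d874_h69

open Pool.Agent.W_28d874_h30

/-- Every quadratic form `∑ b i j v i v j` (`b` symmetric) which vanishes on all differences `v = x - y`
of centres `x, y ∈ P` of touching balls within distance `R` of `p` is zero. -/
def PerfectNear {d : ℕ} (P : Set (E d)) (p : E d) (R : ℝ) : Prop :=
  ∀ b : Fin d → Fin d → ℝ, (∀ i j, b i j = b j i) →
    (∀ x ∈ P, ∀ y ∈ P, dist x p ≤ R → dist y p ≤ R → Touch x y →
      ∑ i, ∑ j, b i j * ((x i - y i) * (x j - y j)) = 0) →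
    ∀ i j, b i j = 0

/-- The points of `L` are the centres of a maximal packing. -/
def MaxLattice {d : ℕ} (L : AddSubgroup (E d)) : Prop := IsMaximal (L : Set (E d))

/-- `L'` is the image of `L` under an isometry of `E^d`. -/
def Congruent {d : ℕ} (L L' : AddSubgroup (E d)) : Prop :=
  ∃ f : E d → E d, Isometry f ∧ f '' (L : Set (E d)) = L'

/-- `L` is generated by its vectors of length `2`. -/
def MinGenerated {d : ℕ} (L : AddSubgroup (E d)) : Prop :=
  AddSubgroup.closure {v : E d | v ∈ L ∧ ‖v‖ = 2} = L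

/-- `c ⟪x, y⟫` is an integer for all `x, y ∈ L`. -/
def IntegralWith {d : ℕ} (c : ℝ) (L : AddSubgroup (E d)) : Prop :=
  ∀ x ∈ L, ∀ y ∈ L, ∃ k : ℤ, c * inner ℝ x y = k

end Pool.Agent.W_28d874_h69
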