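import Pool.Agent.W_28d874_h69.MDefs

namespace Pool.Agent.W_28d874_h69

open Metric Set Filter Topology Pool.Agent.W_28d874_h30

variable {d : ℕ}

/-- Bounded coordinates. Let `K : ℕ` with `(2 d + 4)^d < K`. Claim: `|v.repr u i| ≤ 2 K` for all `u`
with `‖u‖ = 2` (any `u : E d`). Suppose `|v.repr u i| > 2 K`. Let `a = v.repr u`. Put
`w = (a i)⁻¹ • u`, `‖w‖ < 1 / K`, so `w = v i + ∑ j ≠ i, (a j / a i) • v j`. For `k = 0, ..., K`
consider `k • v i + ∑ j ≠ i, ⌊k (a j / a i)⌋ • v j ∈ L`; it differs from `k • w` by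
`∑ j ≠ i, (fractional part) • v j` of norm at most `2 d`, so its norm is at most `1 + 2 d`; for
different `k` these elements of `L` are different (coordinate `i` is `k`), contradicting
`card_le_pow`. -/
lemma coord_bound (d : ℕ) : ∃ C : ℝ, ∀ L : AddSubgroup (E d), IsMaximal (L : Set (E d)) →
    ∀ v : Module.Basis (Fin d) ℝ (E d), (∀ i, v i ∈ L ∧ ‖v i‖ = 2) → ∀ u : E d, ‖u‖ = 2 →
      ∀ i, |v.repr u i| ≤ C := by
  classical
  obtain ⟨K, hK⟩ := exists_nat_gt (((2 : ℝ) * d + 4) ^ d)
  refine ⟨2 * K, fun L hL v hv u hu i => ?_⟩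
  by_contra hcon
  rw [not_le] at hcon
  have hK0 : (0 : ℝ) ≤ K := Nat.cast_nonneg K
  have hai : v.repr u i ≠ 0 := by
    intro h
    rw [h, abs_zero] at hcon
    linarith
  set a : Fin d → ℝ := fun j => v.repr u j with ha
  let x : ℕ → E d := fun k => ∑ j, ⌊(k : ℝ) * (a j / a i)⌋ • v j
  have hxL : ∀ k, x k ∈ (L : Set (E d)) := fun k =>
    L.sum_mem fun j _ => L.zsmul_mem (hv j).1 _
  have hcoord : ∀ k, v.repr (x k) i = k := by
    intro k
    have h1 : x k = ∑ j, ((⌊(k : ℝ) * (a j / a i)⌋ : ℤ) : ℝ) • v j := by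
      refine Finset.sum_congr rfl fun j _ => ?_
      rw [Int.cast_smul_eq_zsmul]
    rw [h1, Module.Basis.repr_sum_self]
    have h2 : a i / a i = 1 := div_self hai
    rw [h2, mul_one, Int.floor_natCast, Int.cast_natCast]
  have hinj : Function.Injective x := by
    intro k l hkl
    have h1 := hcoord k
    rw [hkl, hcoord l] at h1
    exact_mod_cast h1.symm
  have hnorm : ∀ k ≤ K, ‖x k‖ ≤ 1 + 2 * d := by
    intro k hk
    have h1 : ((k : ℝ) / a i) • u - x k = ∑ j, (Int.fract ((k : ℝ) * (a j / a i))) • v j := by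
      have h2 : u = ∑ j, a j • v j := (v.sum_repr u).symm
      calc ((k : ℝ) / a i) • u - x k
          = ((k : ℝ) / a i) • (∑ j, a j • v j) - ∑ j, ⌊(k : ℝ) * (a j / a i)⌋ • v j := by
            rw [← h2]
        _ = ∑ j, (Int.fract ((k : ℝ) * (a j / a i))) • v j := by
            rw [Finset.smul_sum, ← Finset.sum_sub_distrib]
            refine Finset.sum_congr rfl fun j _ => ?_
            rw [smul_smul, ← Int.cast_smul_eq_zsmul ℝ, ← sub_smul]
            congr 1
            rw [← Int.self_sub_floor]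
            ring
    have h3 : ‖∑ j, (Int.fract ((k : ℝ) * (a j / a i))) • v j‖ ≤ 2 * d := by
      calc ‖∑ j, (Int.fract ((k : ℝ) * (a j / a i))) • v j‖
          ≤ ∑ j, ‖(Int.fract ((k : ℝ) * (a j / a i))) • v j‖ := norm_sum_le _ _
        _ ≤ ∑ _j : Fin d, (2 : ℝ) := by
            refine Finset.sum_le_sum fun j _ => ?_
            rw [norm_smul, (hv j).2, Real.norm_of_nonneg (Int.fract_nonneg _)]
            linarith [Int.fract_lt_one ((k : ℝ) * (a j / a i))]
        _ = 2 * d := by
            rw [Finset.sum_const, Finset.card_univ, Fintype.card_fin, nsmul_eq_mul]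
            ring
    have h4 : ‖((k : ℝ) / a i) • u‖ ≤ 1 := by
      rw [norm_smul, hu, norm_div, Real.norm_natCast, Real.norm_eq_abs]
      have hpos : 0 < |a i| := abs_pos.2 hai
      rw [div_mul_eq_mul_div, div_le_one hpos]
      have h5 : (k : ℝ) ≤ K := by exact_mod_cast hk
      have h6 : 2 * (K : ℝ) < |a i| := hcon
      linarith
    have h5 : x k = ((k : ℝ) / a i) • u - (((k : ℝ) / a i) • u - x k) := by abel
    rw [h5]
    refine (norm_sub_le _ _).trans ?_
    rw [h1]
    linarith
  have hcard := card_le_pow (F := (Finset.range (K + 1)).image x)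
    (hL.2.1.mono (by
      intro y hy
      rw [Finset.coe_image] at hy
      obtain ⟨k, _, rfl⟩ := hy
      exact hxL k)) (p := 0) (R := 1 + 2 * d) (by positivity) (by
      intro y hy
      obtain ⟨k, hk, rfl⟩ := Finset.mem_image.1 hy
      rw [dist_zero_right]
      exact hnorm k (by have := Finset.mem_range.1 hk; omega))
  rw [Finset.card_image_of_injective _ hinj, Finset.card_range] at hcard
  push_cast at hcard
  have h7 : ((1 : ℝ) + 2 * d + 1) ^ d ≤ (2 * d + 4) ^ d := by
    apply pow_le_pow_left₀ (by positivity)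
    linarith
  linarith

end Pool.Agent.W_28d874_h69
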