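import Pool.Agent.W_28d874_h69.MDefs

namespace Pool.Agent.W_28d874_h69

open Metric Set Filter Topology Pool.Agent.W_28d874_h30

variable {d : ℕ}

/-- Bounded index. Let `K` be a natural number with `(2 d + 1)^d < K` and `D = K!`. For `x ∈ L` and
`j = 0, ..., K` let `m j i = ⌊(v-coordinate i of j x)⌋` and `r j = j • x - ∑ i, m j i • v i ∈ L`;
`‖r j‖ ≤ ∑ ‖v i‖ = 2 d`. By `card_le_pow` the `r j` (`K + 1` of them) are not all different, so
`r j = r j'` with `j < j'`, and `(j' - j) • x ∈ ∑ ℤ v i` with `0 < j' - j ≤ K`, `j' - j ∣ D`. -/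
lemma bounded_index (d : ℕ) : ∃ D : ℕ, 0 < D ∧ ∀ L : AddSubgroup (E d), IsMaximal (L : Set (E d)) →
    ∀ v : Module.Basis (Fin d) ℝ (E d), (∀ i, v i ∈ L ∧ ‖v i‖ = 2) → ∀ x ∈ L,
      ∃ c : Fin d → ℤ, (D : ℝ) • x = ∑ i, (c i : ℝ) • v i := by
  refine ⟨((2 * d + 1) ^ d + 1).factorial, Nat.factorial_pos _, ?_⟩
  intro L hL v hv x hx
  set K : ℕ := (2 * d + 1) ^ d + 1 with hK
  set m : ℕ → Fin d → ℤ := fun j i => ⌊(j : ℝ) * v.repr x i⌋ with hm
  set r : ℕ → E d := fun j => (j : ℝ) • x - ∑ i, (m j i : ℝ) • v i with hr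
  have hrL : ∀ j, r j ∈ L := by
    intro j
    refine L.sub_mem ?_ (L.sum_mem fun i _ => ?_)
    · have : ((j : ℝ) • x) = j • x := by rw [Nat.cast_smul_eq_nsmul]
      rw [this]
      exact L.nsmul_mem hx j
    · have : ((m j i : ℝ) • v i) = m j i • v i := by rw [Int.cast_smul_eq_zsmul]
      rw [this]
      exact L.zsmul_mem (hv i).1 _
  have hxs : x = ∑ i, v.repr x i • v i := (v.sum_repr x).symm
  have hr2 : ∀ j, r j = ∑ i, Int.fract ((j : ℝ) * v.repr x i) • v i := by
    intro j
    have h1 : (j : ℝ) • x = ∑ i, ((j : ℝ) * v.repr x i) • v i := by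
      conv_lhs => rw [hxs]
      rw [Finset.smul_sum]
      refine Finset.sum_congr rfl fun i _ => ?_
      rw [smul_smul]
    simp only [hr]
    rw [h1, ← Finset.sum_sub_distrib]
    refine Finset.sum_congr rfl fun i _ => ?_
    rw [← sub_smul]
    rfl
  have hrn : ∀ j, ‖r j‖ ≤ 2 * d := by
    intro j
    rw [hr2 j]
    refine (norm_sum_le _ _).trans ?_
    have : ∀ i ∈ (Finset.univ : Finset (Fin d)),
        ‖Int.fract ((j : ℝ) * v.repr x i) • v i‖ ≤ 2 := by
      intro i _
      rw [norm_smul, (hv i).2, Real.norm_of_nonneg (Int.fract_nonneg _)]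
      have := (Int.fract_lt_one ((j : ℝ) * v.repr x i)).le
      linarith
    refine (Finset.sum_le_card_nsmul _ _ 2 this).trans ?_
    simp [mul_comm]
  have hex : ∃ j j' : ℕ, j < j' ∧ j' ≤ K ∧ r j = r j' := by
    by_contra hcon
    push Not at hcon
    have hinj : Set.InjOn r (Finset.range (K + 1) : Set ℕ) := by
      intro a ha b hb hab
      have ha' : a ≤ K := by
        have := Finset.mem_range.1 (Finset.mem_coe.1 ha)
        omega
      have hb' : b ≤ K := by
        have := Finset.mem_range.1 (Finset.mem_coe.1 hb)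
        omega
      rcases lt_trichotomy a b with h | h | h
      · exact absurd hab (hcon a b h hb')
      · exact h
      · exact absurd hab.symm (hcon b a h ha')
    classical
    have hcard : ((Finset.range (K + 1)).image r).card = K + 1 := by
      rw [Finset.card_image_of_injOn hinj, Finset.card_range]
    have hpk : IsPacking (((Finset.range (K + 1)).image r : Finset (E d)) : Set (E d)) := by
      refine hL.2.1.mono ?_
      intro y hy
      rw [Finset.mem_coe, Finset.mem_image] at hy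
      obtain ⟨j, -, rfl⟩ := hy
      exact hrL j
    have hle := card_le_pow hpk (p := 0) (R := 2 * d) (by positivity) (by
      intro y hy
      rw [Finset.mem_image] at hy
      obtain ⟨j, -, rfl⟩ := hy
      rw [dist_zero_right]
      exact hrn j)
    rw [hcard, hK] at hle
    push_cast at hle
    have : (0 : ℝ) ≤ 1 := zero_le_one
    linarith
  obtain ⟨j, j', hjj, hjK, hrr⟩ := hex
  have hdvd : (j' - j) ∣ K.factorial := Nat.dvd_factorial (by omega) (by omega)
  obtain ⟨e, he⟩ := hdvd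
  refine ⟨fun i => (e : ℤ) * (m j' i - m j i), ?_⟩
  have h1 : ((j' - j : ℕ) : ℝ) • x = ∑ i, ((m j' i : ℝ) - (m j i : ℝ)) • v i := by
    have h2 : (j : ℝ) • x - ∑ i, (m j i : ℝ) • v i = (j' : ℝ) • x - ∑ i, (m j' i : ℝ) • v i := hrr
    rw [Nat.cast_sub hjj.le, sub_smul]
    simp only [sub_smul, Finset.sum_sub_distrib]
    rw [sub_eq_sub_iff_add_eq_add] at h2 ⊢
    rw [add_comm (∑ i, (m j' i : ℝ) • v i), ← h2]
  rw [he, Nat.cast_mul, mul_comm, mul_smul, h1, Finset.smul_sum]
  refine Finset.sum_congr rfl fun i _ => ?_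
  rw [smul_smul]
  push_cast
  rfl

end Pool.Agent.W_28d874_h69
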