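import Pool.Agent.W_28d874_h69.LatC
import Pool.Agent.W_28d874_h69.LatIdx
import Pool.Agent.W_28d874_h69.LatCrd

namespace Pool.Agent.W_28d874_h69

open Metric Set Filter Topology Pool.Agent.W_28d874_h30

variable {d : ℕ}

/-- Finitely many maximal lattices up to isometry. With `D` from `bounded_index` and `C` from
`coord_bound`, every code (for a maximal `L` and a basis `v` of minimal vectors, `exists_basis`) is a
subset of the finite box of integer vectors with entries of absolute value at most `D C`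
(`D • u = ∑ c i v i` gives `c i = D (v.repr u i)`). For each subset of the box which is the code of
some maximal lattice choose one such lattice; use `isometric_of_code`. -/
lemma finitely_many (d : ℕ) : ∃ F : Set (AddSubgroup (E d)), F.Finite ∧
    ∀ L : AddSubgroup (E d), IsMaximal (L : Set (E d)) →
      ∃ L' ∈ F, ∃ f : E d ≃ₗᵢ[ℝ] E d, L = L'.map (f.toLinearEquiv : E d →+ E d) := by
  classical
  obtain ⟨D, hD0, hD⟩ := bounded_index d
  obtain ⟨C, hC⟩ := coord_bound d
  have hsub : ∀ (L : AddSubgroup (E d)), IsMaximal (L : Set (E d)) →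
      ∀ v : Module.Basis (Fin d) ℝ (E d), (∀ i, v i ∈ L ∧ ‖v i‖ = 2) →
        code D L v ∈ 𝒫 (Set.Icc (fun _ : Fin d => -⌈(D : ℝ) * C⌉) fun _ => ⌈(D : ℝ) * C⌉) := by
    intro L hL v hv
    rw [Set.mem_powerset_iff]
    rintro c ⟨u, hu, hu2, hc⟩
    have h2 : ∀ i, |c i| ≤ ⌈(D : ℝ) * C⌉ := by
      intro i
      have h3 : (c i : ℝ) = D * v.repr u i := by
        have h4 := congrArg (fun x => v.repr x i) hc
        simp only [map_smul, Finsupp.smul_apply, smul_eq_mul] at h4
        rw [h4, v.repr_sum_self]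
      have h5 : |(c i : ℝ)| ≤ D * C := by
        rw [h3, abs_mul, Nat.abs_cast]
        exact mul_le_mul_of_nonneg_left (hC L hL v hv u hu2 i) (Nat.cast_nonneg _)
      have h6 : ((|c i| : ℤ) : ℝ) ≤ (⌈(D : ℝ) * C⌉ : ℤ) := by
        rw [Int.cast_abs]
        exact h5.trans (Int.le_ceil _)
      exact_mod_cast h6
    exact ⟨fun i => (abs_le.1 (h2 i)).1, fun i => (abs_le.1 (h2 i)).2⟩
  let G : Set (Fin d → ℤ) → AddSubgroup (E d) := fun T =>
    if h : ∃ L : AddSubgroup (E d), IsMaximal (L : Set (E d)) ∧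
      ∃ v : Module.Basis (Fin d) ℝ (E d), (∀ i, v i ∈ L ∧ ‖v i‖ = 2) ∧ code D L v = T
    then h.choose else ⊥
  refine ⟨G '' 𝒫 (Set.Icc (fun _ : Fin d => -⌈(D : ℝ) * C⌉) fun _ => ⌈(D : ℝ) * C⌉),
    ((Set.finite_Icc _ _).powerset).image G, fun L hL => ?_⟩
  obtain ⟨v, hv⟩ := exists_basis hL
  have h : ∃ L' : AddSubgroup (E d), IsMaximal (L' : Set (E d)) ∧
      ∃ v' : Module.Basis (Fin d) ℝ (E d), (∀ i, v' i ∈ L' ∧ ‖v' i‖ = 2) ∧
        code D L' v' = code D L v := ⟨L, hL, v, hv, rfl⟩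
  have hG : G (code D L v) = h.choose := dif_pos h
  obtain ⟨hL', v', hv', hc⟩ := h.choose_spec
  refine ⟨G (code D L v), ⟨_, hsub L hL v hv, rfl⟩, ?_⟩
  rw [hG]
  exact isometric_of_code hD0 hL' hL v' v hv' hv (hD _ hL' v' hv') (hD L hL v hv) hc

end Pool.Agent.W_28d874_h69
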