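import Pool.Agent.W_28d874_h69.DistD

namespace Pool.Agent.W_28d874_h69

open Metric Set Filter Topology Pool.Agent.W_28d874_h30

variable {d : ℕ}

/-- Integral lattices of small minimum give no maximal packings in high dimensions: if `√c L` is
integral (its minimal norm is `4 c`), then `d < 32 (4 c + 2)`. -/
lemma integral_bound (hd : 1 ≤ d) {L : AddSubgroup (E d)} (hL : IsMaximal (L : Set (E d))) {c : ℝ}
    (hc : 0 < c) (h : ∀ x ∈ L, ∀ y ∈ L, ∃ k : ℤ, c * inner ℝ x y = k) :
    (d : ℝ) < 32 * (4 * c + 2) := by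
  classical
  have hpk := isPacking_iff.1 hL.2.1
  set m : ℤ := ⌊2 * c⌋ with hm
  have hm0 : 0 ≤ m := Int.floor_nonneg.2 (by positivity)
  have hmle : (m : ℝ) ≤ 2 * c := Int.floor_le _
  set T : Finset ℤ := Finset.Icc (-m) m ∪ {⌊-4 * c⌋} with hT
  set S : Set ℝ := {δ : ℝ | ∃ y ∈ (L : Set (E d)), ∃ z ∈ (L : Set (E d)), Touch 0 y ∧ Touch 0 z ∧
    y ≠ z ∧ δ = dist y z} with hS
  have htouch : ∀ y ∈ (L : Set (E d)), Touch 0 y → ‖y‖ = 2 := by
    intro y hy ht
    rw [touch_iff] at ht
    have h1 := hpk 0 L.zero_mem y hy ht.1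
    rw [dist_zero_left] at h1
    have h2 := ht.2
    rw [dist_zero_left] at h2
    linarith
  have hsub : S ⊆ ((fun k : ℤ => Real.sqrt (8 - 2 * (k / c))) '' (T : Set ℤ)) := by
    rintro δ ⟨y, hy, z, hz, hty, htz, hyz, rfl⟩
    have hy2 := htouch y hy hty
    have hz2 := htouch z hz htz
    obtain ⟨k, hk⟩ := h y hy z hz
    have hin : inner ℝ y z = k / c := by rw [← hk]; field_simp
    have hd2 : dist y z ^ 2 = 8 - 2 * inner ℝ y z := by
      rw [dist_eq_norm, norm_sub_sq_real, hy2, hz2]; ring
    refine ⟨k, ?_, ?_⟩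
    · rw [hT, Finset.coe_union, Finset.coe_singleton]
      have h1 := hpk y hy z hz hyz
      have h2 : inner ℝ y z ≤ 2 := by nlinarith [dist_nonneg (x := y) (y := z)]
      by_cases hneg : y = -z
      · right
        have : c * inner ℝ y z = -4 * c := by
          rw [hneg, inner_neg_left, real_inner_self_eq_norm_sq, hz2]; ring
        rw [hk] at this
        show k = ⌊-4 * c⌋
        rw [← this, Int.floor_intCast]
      · left
        have h3 : 2 ≤ dist y (-z) := hpk y hy (-z) (L.neg_mem hz) hneg
        have h4 : dist y (-z) ^ 2 = 8 + 2 * inner ℝ y z := by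
          rw [dist_eq_norm, sub_neg_eq_add, norm_add_sq_real, hy2, hz2]; ring
        have h5 : -2 ≤ inner ℝ y z := by nlinarith [dist_nonneg (x := y) (y := -z)]
        rw [Finset.coe_Icc]
        constructor
        · have h6 : (-k : ℤ) ≤ m := by
            rw [hm]
            apply Int.le_floor.2
            push_cast
            rw [← hk]
            nlinarith
          omega
        · rw [hm]
          apply Int.le_floor.2
          rw [← hk]
          nlinarith
    · show Real.sqrt (8 - 2 * (k / c)) = dist y z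
      rw [← hin, ← hd2, Real.sqrt_sq dist_nonneg]
  have hfin : ((fun k : ℤ => Real.sqrt (8 - 2 * (k / c))) '' (T : Set ℤ)).Finite :=
    T.finite_toSet.image _
  have hcard : S.ncard ≤ T.card := by
    refine (Set.ncard_le_ncard hsub hfin).trans ?_
    refine (Set.ncard_image_le T.finite_toSet).trans ?_
    rw [Set.ncard_coe_finset]
  have hTc : (T.card : ℝ) ≤ 4 * c + 2 := by
    have h1 : T.card ≤ (Finset.Icc (-m) m).card + 1 := by
      refine (Finset.card_union_le _ _).trans ?_
      simp
    have h2 : (Finset.Icc (-m) m).card = (2 * m + 1).toNat := by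
      rw [Int.card_Icc]; congr 1; ring
    have h3 : ((2 * m + 1).toNat : ℝ) = 2 * m + 1 := by
      have : ((2 * m + 1).toNat : ℤ) = 2 * m + 1 := Int.toNat_of_nonneg (by omega)
      exact_mod_cast this
    have h4 : (T.card : ℝ) ≤ ((Finset.Icc (-m) m).card : ℝ) + 1 := by exact_mod_cast h1
    rw [h2, h3] at h4
    linarith
  have h1 := linear_of_choose hd (many_distances hd hL L.zero_mem T.card hcard)
  have h2 : (d : ℝ) < 32 * T.card := by exact_mod_cast h1
  linarith

end Pool.Agent.W_28d874_h69
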