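import Pool.Agent.W_28d874_h69.MDefs

namespace Pool.Agent.W_28d874_h69

open Metric Set Filter Topology Pool.Agent.W_28d874_h30

variable {d : ℕ}

private lemma latA_dir {L : AddSubgroup (E d)} (hL : IsMaximal (L : Set (E d))) {w : E d}
    (hw : w ≠ 0) : ∃ y ∈ L, ‖y‖ = 2 ∧ ‖w‖ < inner ℝ y w := by
  have hn : 0 < ‖w‖ := norm_pos_iff.2 hw
  have hu : ‖(1 / ‖w‖) • w‖ = 1 := by
    rw [norm_smul, Real.norm_of_nonneg (by positivity)]
    field_simp
  obtain ⟨y, hy, hd, hi⟩ := exists_dir hL (x := (0 : E d)) (by exact L.zero_mem) hu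
  refine ⟨y, hy, ?_, ?_⟩
  · rw [dist_comm, dist_zero_right] at hd
    exact hd
  · rw [sub_zero, inner_smul_right] at hi
    have h2 : 1 / ‖w‖ * inner ℝ y w = inner ℝ y w / ‖w‖ := by ring
    rw [h2, lt_div_iff₀ hn] at hi
    linarith

/-- A maximal lattice packing is generated by its minimal vectors. For `x ∈ L`, `x ≠ 0` (so
`2 ≤ ‖x‖`), `exists_dir` at `0` with `u = x/‖x‖` gives `v ∈ L`, `‖v‖ = 2`, `⟪v, x⟫ > ‖x‖`, so
`‖x - v‖² < ‖x‖²`. Descend: the norms of the elements of `L` of norm at most `‖x‖` form a finite set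
(`finite_of_bounded`), so induct on `{y ∈ L | ‖y‖ < ‖x‖}.ncard` or take a minimal counterexample. -/
lemma closure_min {L : AddSubgroup (E d)} (hL : IsMaximal (L : Set (E d))) :
    AddSubgroup.closure {v : E d | v ∈ L ∧ ‖v‖ = 2} = L := by
  set C := AddSubgroup.closure {v : E d | v ∈ L ∧ ‖v‖ = 2} with hC
  refine le_antisymm ?_ ?_
  · rw [hC, AddSubgroup.closure_le]
    exact fun v hv => hv.1
  · intro x0 hx0
    by_contra hx0C
    have hfin : ({x ∈ (L : Set (E d)) | dist x 0 ≤ dist x0 0 ∧ x ∉ C}).Finite :=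
      (finite_of_bounded hL.2.1 (0 : E d) (dist x0 0)).subset (fun x hx => ⟨hx.1, hx.2.1⟩)
    have hne : ({x ∈ (L : Set (E d)) | dist x 0 ≤ dist x0 0 ∧ x ∉ C}).Nonempty :=
      ⟨x0, hx0, le_rfl, hx0C⟩
    obtain ⟨x, hx, hmin⟩ := Set.exists_min_image _ (fun x => ‖x‖) hfin hne
    obtain ⟨hxL, hxd, hxC⟩ := hx
    have hx0' : x ≠ 0 := fun h => hxC (h ▸ C.zero_mem)
    obtain ⟨y, hyL, hy2, hyi⟩ := latA_dir hL hx0'
    have hx2 : 2 ≤ ‖x‖ := by
      have := isPacking_iff.1 hL.2.1 x hxL 0 (by exact L.zero_mem) hx0'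
      rwa [dist_zero_right] at this
    have hlt : ‖x - y‖ < ‖x‖ := by
      have h1 : ‖x - y‖ ^ 2 = ‖x‖ ^ 2 - 2 * inner ℝ y x + 4 := by
        rw [norm_sub_sq_real, hy2, real_inner_comm]; norm_num
      have h2 : ‖x - y‖ ^ 2 < ‖x‖ ^ 2 := by rw [h1]; linarith
      exact lt_of_pow_lt_pow_left₀ 2 (norm_nonneg _) h2
    have hyC : y ∈ C := AddSubgroup.subset_closure ⟨hyL, hy2⟩
    have hxy : x - y ∈ L := L.sub_mem hxL hyL
    have hxyC : x - y ∉ C := fun h => hxC (by simpa using C.add_mem h hyC)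
    have hmem : x - y ∈ {x ∈ (L : Set (E d)) | dist x 0 ≤ dist x0 0 ∧ x ∉ C} := by
      refine ⟨hxy, ?_, hxyC⟩
      rw [dist_zero_right] at hxd ⊢
      exact le_trans hlt.le hxd
    have := hmin _ hmem
    exact absurd this (not_le.2 hlt)

/-- There is a basis of `E^d` of minimal vectors: if the real span of the minimal vectors were not
everything, there would be a unit vector `u` orthogonal to it, and `exists_dir` at `0` gives a minimal
vector `v` with `⟪v, u⟫ > 1`. Then extract a basis from the spanning set (finite dimension `d`). -/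
lemma exists_basis {L : AddSubgroup (E d)} (hL : IsMaximal (L : Set (E d))) :
    ∃ v : Module.Basis (Fin d) ℝ (E d), ∀ i, v i ∈ L ∧ ‖v i‖ = 2 := by
  set M : Set (E d) := {v : E d | v ∈ L ∧ ‖v‖ = 2} with hM
  have hspan : Submodule.span ℝ M = ⊤ := by
    rw [← Submodule.orthogonal_eq_bot_iff, Submodule.eq_bot_iff]
    intro w hw
    by_contra hw0
    obtain ⟨y, hyL, hy2, hyi⟩ := latA_dir hL hw0
    have h1 : inner ℝ y w = 0 :=
      (Submodule.mem_orthogonal _ _).1 hw y (Submodule.subset_span ⟨hyL, hy2⟩)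
    rw [h1] at hyi
    exact absurd hyi (not_lt.2 (norm_nonneg _))
  obtain ⟨b, hbM, hbs, hbi⟩ := exists_linearIndependent ℝ M
  rw [hspan] at hbs
  let B : Module.Basis b ℝ (E d) := Module.Basis.mk hbi (by rw [Subtype.range_coe]; exact hbs.ge)
  have hbf : b.Finite := hbi.setFinite
  haveI : Fintype b := hbf.fintype
  have hcard : Fintype.card b = d := by
    have := Module.finrank_eq_card_basis B
    rw [finrank_euclideanSpace, Fintype.card_fin] at this
    exact this.symm
  let e : b ≃ Fin d := Fintype.equivFinOfCardEq hcard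
  refine ⟨B.reindex e, fun i => ?_⟩
  rw [Module.Basis.reindex_apply, Module.Basis.mk_apply]
  exact hbM (e.symm i).2

end Pool.Agent.W_28d874_h69
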