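import Pool.Agent.W_28d874_h69.Perfect
import Pool.Agent.W_28d874_h69.LatA
import Pool.Agent.W_28d874_h69.LatIdx

namespace Pool.Agent.W_28d874_h69

open Metric Set Filter Topology Pool.Agent.W_28d874_h30

variable {d : ℕ}

private lemma LatRat_sum {V : Type*} [AddCommGroup V] [Module ℝ V] (v : Fin d → V) (c e : Fin d → ℤ)
    (F : V →ₗ[ℝ] V →ₗ[ℝ] ℝ) :
    F (∑ i, (c i : ℝ) • v i) (∑ i, (e i : ℝ) • v i) =
      ∑ i, ∑ j, ((c i * e j : ℤ) : ℝ) * F (v i) (v j) := by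
  have h1 : F (∑ i, (c i : ℝ) • v i) = ∑ i, (c i : ℝ) • F (v i) := by
    rw [map_sum]
    refine Finset.sum_congr rfl fun i _ => ?_
    rw [map_smul]
  rw [h1, LinearMap.sum_apply]
  refine Finset.sum_congr rfl fun i _ => ?_
  rw [LinearMap.smul_apply, map_sum, Finset.smul_sum]
  refine Finset.sum_congr rfl fun j _ => ?_
  rw [map_smul, smul_eq_mul, smul_eq_mul, ← mul_assoc, Int.cast_mul]

private lemma LatRat_inner (v : Fin d → E d) (c e : Fin d → ℤ) :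
    inner ℝ (∑ i, (c i : ℝ) • v i) (∑ i, (e i : ℝ) • v i) =
      ∑ i, ∑ j, ((c i * e j : ℤ) : ℝ) * inner ℝ (v i) (v j) := by
  exact LatRat_sum v c e (innerₗ (E d))

private lemma LatRat_pi : ∃ π : ℝ →ₗ[ℚ] ℚ, ∀ q : ℚ, π (q : ℝ) = q := by
  obtain ⟨g, hg⟩ := LinearMap.exists_leftInverse_of_injective (Algebra.linearMap ℚ ℝ)
    (LinearMap.ker_eq_bot.2 (algebraMap ℚ ℝ).injective)
  refine ⟨g, fun q => ?_⟩
  have := LinearMap.congr_fun hg q
  simpa using this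

/-- Common denominator. -/
private lemma LatRat_den (q : Fin d → Fin d → ℚ) :
    ∃ m : ℕ, 0 < m ∧ ∃ K : Fin d → Fin d → ℤ, ∀ i j, (m : ℝ) * (q i j : ℝ) = K i j := by
  refine ⟨∏ p : Fin d × Fin d, (q p.1 p.2).den, Finset.prod_pos fun p _ => (q p.1 p.2).pos, ?_⟩
  have h : ∀ i j, ∃ k : ℤ,
      ((∏ p : Fin d × Fin d, (q p.1 p.2).den : ℕ) : ℝ) * (q i j : ℝ) = k := by
    intro i j
    have hdvd : (q i j).den ∣ ∏ p : Fin d × Fin d, (q p.1 p.2).den :=
      Finset.dvd_prod_of_mem (fun p : Fin d × Fin d => (q p.1 p.2).den) (Finset.mem_univ (i, j))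
    obtain ⟨e, he⟩ := hdvd
    refine ⟨(e : ℤ) * (q i j).num, ?_⟩
    have h2 : ((q i j).den : ℝ) ≠ 0 := Nat.cast_ne_zero.2 (q i j).pos.ne'
    have h1 : (q i j : ℝ) * ((q i j).den : ℝ) = ((q i j).num : ℝ) := by
      rw [Rat.cast_def, div_mul_cancel₀ _ h2]
    rw [he, Nat.cast_mul, Int.cast_mul, ← h1, Int.cast_natCast]
    ring
  choose K hK using h
  exact ⟨K, hK⟩

/-- For a basis of the lattice up to index `D`: the form `π ⟪·,·⟫ - ⟪·,·⟫` vanishes, where `π` is a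
`ℚ`-linear retraction. -/
private lemma LatRat_rat {L : AddSubgroup (E d)} (hL : IsMaximal (L : Set (E d)))
    (v : Module.Basis (Fin d) ℝ (E d)) {D : ℕ} (hD : 0 < D)
    (hc : ∀ x ∈ L, ∃ c : Fin d → ℤ, (D : ℝ) • x = ∑ i, (c i : ℝ) • v i) :
    ∃ q : Fin d → Fin d → ℚ, ∀ i j, inner ℝ (v i) (v j) = (q i j : ℝ) := by
  obtain ⟨π, hπ⟩ := LatRat_pi
  have hπm : ∀ (n : ℤ) (r : ℝ), π ((n : ℝ) * r) = (n : ℚ) * π r := by
    intro n r
    have h1 : (n : ℝ) * r = n • r := by rw [zsmul_eq_mul]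
    rw [h1, map_zsmul, zsmul_eq_mul]
  obtain ⟨B, hBv⟩ : ∃ B : E d →ₗ[ℝ] E d →ₗ[ℝ] ℝ, ∀ i j, B (v i) (v j) =
      ((π (inner ℝ (v i) (v j)) : ℚ) : ℝ) - inner ℝ (v i) (v j) := by
    refine ⟨v.constr ℝ (fun i => v.constr ℝ (fun j =>
      ((π (inner ℝ (v i) (v j)) : ℚ) : ℝ) - inner ℝ (v i) (v j))), fun i j => ?_⟩
    rw [v.constr_basis, v.constr_basis]
  have hBs : Symm B := by
    have h : B = B.flip := by
      refine v.ext fun i => v.ext fun j => ?_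
      rw [LinearMap.flip_apply, hBv, hBv, real_inner_comm]
    intro x y
    conv_lhs => rw [h]
    rfl
  have hBc : ∀ c : Fin d → ℤ, B (∑ i, (c i : ℝ) • v i) (∑ i, (c i : ℝ) • v i) =
      ((π (inner ℝ (∑ i, (c i : ℝ) • v i) (∑ i, (c i : ℝ) • v i)) : ℚ) : ℝ) -
        inner ℝ (∑ i, (c i : ℝ) • v i) (∑ i, (c i : ℝ) • v i) := by
    intro c
    rw [LatRat_sum, LatRat_inner, map_sum, Rat.cast_sum, ← Finset.sum_sub_distrib]
    refine Finset.sum_congr rfl fun i _ => ?_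
    rw [map_sum, Rat.cast_sum, ← Finset.sum_sub_distrib]
    refine Finset.sum_congr rfl fun j _ => ?_
    rw [hπm, hBv, Rat.cast_mul, Rat.cast_intCast, mul_sub]
  have hBF : Flat B (L : Set (E d)) := by
    intro x hx y hy hxy
    rw [touch_iff] at hxy
    have h2 := isPacking_iff.1 hL.2.1 x hx y hy hxy.1
    have hn : ‖x - y‖ = 2 := by
      rw [← dist_eq_norm]
      exact le_antisymm hxy.2 h2
    obtain ⟨c, hc'⟩ := hc (x - y) (L.sub_mem hx hy)
    have h3 := hBc c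
    have h5 : inner ℝ ((D : ℝ) • (x - y)) ((D : ℝ) • (x - y)) = (((D * D * 4 : ℕ) : ℚ) : ℝ) := by
      rw [inner_smul_left, inner_smul_right, real_inner_self_eq_norm_sq, hn, conj_trivial]
      push_cast
      ring
    have h6 : B ((D : ℝ) • (x - y)) ((D : ℝ) • (x - y)) =
        (D : ℝ) * ((D : ℝ) * B (x - y) (x - y)) := by
      rw [map_smul, map_smul, LinearMap.smul_apply, smul_eq_mul, smul_eq_mul]
    rw [← hc', h5, h6, hπ, sub_self] at h3
    have hD' : (D : ℝ) ≠ 0 := Nat.cast_ne_zero.2 hD.ne'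
    rcases mul_eq_zero.1 h3 with h | h
    · exact absurd h hD'
    · rcases mul_eq_zero.1 h with h | h
      · exact absurd h hD'
      · exact h
  have hB0 := perfect hL hBs hBF
  refine ⟨fun i j => π (inner ℝ (v i) (v j)), fun i j => ?_⟩
  have h := hBv i j
  rw [hB0] at h
  simp only [LinearMap.zero_apply] at h
  linarith

/-- Rationality. Let `v` be a basis of minimal vectors, `D` from `bounded_index`. Let `π : ℝ → ℚ` be
`ℚ`-linear with `π q = q` for rational `q` (a `ℚ`-linear left inverse of the inclusion). Let `B` be the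
symmetric bilinear form with `B (v i) (v j) = π ⟪v i, v j⟫ - ⟪v i, v j⟫`. For a minimal vector `u`,
`D u = ∑ c i v i` with integers `c i`, so `D² B u u = π (∑ c i c j ⟪v i, v j⟫) - ∑ c i c j ⟪v i, v j⟫ =
π (4 D²) - 4 D² = 0`. Contact vectors `x - y` are minimal vectors, so `B` is flat and `B = 0` by
`perfect`: all `⟪v i, v j⟫` are rational. Let `m > 0` be an integer with `m ⟪v i, v j⟫ ∈ ℤ` for all
`i, j`. For `x, y ∈ L`, `D² m ⟪x, y⟫ = ⟪D x, D y⟫ m` is an integer. -/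
lemma rational {L : AddSubgroup (E d)} (hL : IsMaximal (L : Set (E d))) :
    ∃ m : ℕ, 0 < m ∧ ∀ x ∈ L, ∀ y ∈ L, ∃ k : ℤ, (m : ℝ) * inner ℝ x y = k := by
  obtain ⟨v, hv⟩ := exists_basis hL
  obtain ⟨D, hD, hidx⟩ := bounded_index d
  have hc := hidx L hL v hv
  obtain ⟨q, hq⟩ := LatRat_rat hL v hD hc
  obtain ⟨m0, hm0, K, hK⟩ := LatRat_den q
  refine ⟨D * D * m0, Nat.mul_pos (Nat.mul_pos hD hD) hm0, fun x hx y hy => ?_⟩
  obtain ⟨c, hcx⟩ := hc x hx
  obtain ⟨e, hey⟩ := hc y hy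
  have h1 := LatRat_inner (fun i => v i) c e
  rw [← hcx, ← hey, inner_smul_left, inner_smul_right, conj_trivial] at h1
  refine ⟨∑ i, ∑ j, (c i * e j) * K i j, ?_⟩
  have h2 : ((D * D * m0 : ℕ) : ℝ) * inner ℝ x y = m0 * ((D : ℝ) * ((D : ℝ) * inner ℝ x y)) := by
    rw [Nat.cast_mul, Nat.cast_mul]
    ring
  rw [h2, h1, Finset.mul_sum, Int.cast_sum]
  refine Finset.sum_congr rfl fun i _ => ?_
  rw [Finset.mul_sum, Int.cast_sum]
  refine Finset.sum_congr rfl fun j _ => ?_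
  rw [Int.cast_mul (c i * e j) (K i j), ← hK i j, hq i j]
  ring

end Pool.Agent.W_28d874_h69
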