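import Pool.Agent.W_28d874_h69.Perfect

namespace Pool.Agent.W_28d874_h69

open Metric Set Filter Topology Pool.Agent.W_28d874_h30

variable {d : ℕ}

private lemma locA_expand (B : E d →ₗ[ℝ] E d →ₗ[ℝ] ℝ) (x y : E d) :
    B x y = ∑ i, ∑ j, x i * y j *
      B (EuclideanSpace.basisFun (Fin d) ℝ i) (EuclideanSpace.basisFun (Fin d) ℝ j) := by
  have hx : ∀ w : E d, w = ∑ i, w i • EuclideanSpace.basisFun (Fin d) ℝ i := by
    intro w
    conv_lhs => rw [← (EuclideanSpace.basisFun (Fin d) ℝ).sum_repr w]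
    simp
  have h1 : B x y = B (∑ i, x i • EuclideanSpace.basisFun (Fin d) ℝ i)
      (∑ j, y j • EuclideanSpace.basisFun (Fin d) ℝ j) := by rw [← hx, ← hx]
  rw [h1]
  simp only [map_sum, LinearMap.sum_apply, map_smul, LinearMap.smul_apply, smul_eq_mul]
  simp only [Finset.mul_sum]
  rw [Finset.sum_comm]
  refine Finset.sum_congr rfl fun i _ => Finset.sum_congr rfl fun j _ => ?_
  ring

private lemma locA_form (m : Fin d → Fin d → ℝ) : ∃ B : E d →ₗ[ℝ] E d →ₗ[ℝ] ℝ,
    ∀ x y : E d, B x y = ∑ i, ∑ j, x i * y j * m i j := by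
  refine ⟨LinearMap.mk₂ ℝ (fun x y : E d => ∑ i, ∑ j, x i * y j * m i j) ?_ ?_ ?_ ?_,
    fun x y => rfl⟩
  · intro x x' y
    simp only [PiLp.add_apply, add_mul, Finset.sum_add_distrib]
  · intro a x y
    simp only [PiLp.smul_apply, smul_eq_mul, Finset.mul_sum]
    refine Finset.sum_congr rfl fun i _ => Finset.sum_congr rfl fun j _ => ?_
    ring
  · intro x y y'
    simp only [PiLp.add_apply, mul_add, add_mul, Finset.sum_add_distrib]
  · intro a x y
    simp only [PiLp.smul_apply, smul_eq_mul, Finset.mul_sum]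
    refine Finset.sum_congr rfl fun i _ => Finset.sum_congr rfl fun j _ => ?_
    ring

/-- Uniform local perfection. Otherwise for every `k : ℕ` there are a maximal `P k`, a point `p k` and
a symmetric `B k ≠ 0` which vanishes on all contact vectors of balls with centres within `k` of `p k`.
Work with the matrices `b k i j = B k (e i) (e j)` (a point of the finite dimensional space
`Fin d → Fin d → ℝ`), scaled to have sup norm `1`. By `saturated` choose `x k ∈ P k` with
`dist (x k) (p k) < 2`, let `Q k = (fun z => z - x k) '' P k`, `0 ∈ Q k`; `Q k` is full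
(`HasNear.translate`, `hasNear_of_ncard`, `near_of_maximal`), so `limSet Q` is maximal
(`limSet_maximal`). Let `b` be the limit of `b k` along the hyperfilter (compactness), of sup norm
`1`, and `B` the symmetric form with matrix `b`. If `z, z' ∈ limSet Q` touch, they are limits of
`y k, y' k ∈ Q k`, eventually `dist (y k) (y' k) < 2 + ε` (with `ε` from `unifGap`), so `y k, y' k` touch
(`unifGap` for the translate of `P k`, or translate back), and they are within `k - 2` of `0` for most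
`k`, so `B k (y k - y' k) (y k - y' k) = 0`, and in the limit `B (z - z') (z - z') = 0`. So `B` is
flat on `limSet Q`, and `B = 0` by `perfect`, a contradiction. -/
lemma perfect_local : ∃ R : ℝ, 0 < R ∧ ∀ P : Set (E d), IsMaximal P → ∀ p : E d,
    ∀ B : E d →ₗ[ℝ] E d →ₗ[ℝ] ℝ, Symm B →
      (∀ x ∈ P, ∀ y ∈ P, dist x p ≤ R → dist y p ≤ R → Touch x y → B (x - y) (x - y) = 0) →
        B = 0 := by
  classical
  by_contra hcon
  push Not at hcon
  have hcon' : ∀ k : ℕ, ∃ P : Set (E d), IsMaximal P ∧ ∃ p : E d, ∃ B : E d →ₗ[ℝ] E d →ₗ[ℝ] ℝ,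
      Symm B ∧ (∀ x ∈ P, ∀ y ∈ P, dist x p ≤ (k : ℝ) + 1 → dist y p ≤ (k : ℝ) + 1 → Touch x y →
        B (x - y) (x - y) = 0) ∧ B ≠ 0 := by
    intro k
    obtain ⟨P, hP, p, B, hB, hF, hB0⟩ := hcon ((k : ℝ) + 1) (by positivity)
    exact ⟨P, hP, p, B, hB, hF, hB0⟩
  choose P hP p B hB hF hB0 using hcon'
  obtain ⟨ε, hε, hgap⟩ := unifGap (d := d)
  -- the matrices of norm one
  let c : ℕ → (Fin d → Fin d → ℝ) := fun k i j =>
    B k (EuclideanSpace.basisFun (Fin d) ℝ i) (EuclideanSpace.basisFun (Fin d) ℝ j)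
  have hc : ∀ k x y, B k x y = ∑ i, ∑ j, x i * y j * c k i j := fun k x y => locA_expand (B k) x y
  have hc0 : ∀ k, c k ≠ 0 := by
    intro k h
    apply hB0 k
    ext x y
    rw [hc k, h]
    simp
  let b : ℕ → (Fin d → Fin d → ℝ) := fun k => (‖c k‖)⁻¹ • c k
  have hb : ∀ k (x y : E d), ∑ i, ∑ j, x i * y j * b k i j = (‖c k‖)⁻¹ * B k x y := by
    intro k x y
    rw [hc, Finset.mul_sum]
    refine Finset.sum_congr rfl fun i _ => ?_
    rw [Finset.mul_sum]
    refine Finset.sum_congr rfl fun j _ => ?_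
    show x i * y j * ((‖c k‖)⁻¹ * c k i j) = _
    ring
  have hb1 : ∀ k, ‖b k‖ = 1 := by
    intro k
    have h1 : ‖c k‖ ≠ 0 := norm_ne_zero_iff.2 (hc0 k)
    show ‖(‖c k‖)⁻¹ • c k‖ = 1
    rw [norm_smul, norm_inv, norm_norm, inv_mul_cancel₀ h1]
  obtain ⟨T, hT1, hT⟩ : ∃ T : Fin d → Fin d → ℝ, ‖T‖ = 1 ∧
      Tendsto b (hyperfilter ℕ : Filter ℕ) (𝓝 T) := by
    have hcpt : IsCompact (sphere (0 : Fin d → Fin d → ℝ) 1) := isCompact_sphere _ _
    have hle : (((hyperfilter ℕ).map b : Ultrafilter (Fin d → Fin d → ℝ)) :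
        Filter (Fin d → Fin d → ℝ)) ≤ 𝓟 (sphere 0 1) := by
      rw [le_principal_iff]
      show ∀ᶠ k in (hyperfilter ℕ : Filter ℕ), b k ∈ sphere (0 : Fin d → Fin d → ℝ) 1
      exact Eventually.of_forall fun k => by rw [mem_sphere_zero_iff_norm]; exact hb1 k
    obtain ⟨w, hw1, hw⟩ := hcpt.ultrafilter_le_nhds _ hle
    exact ⟨w, mem_sphere_zero_iff_norm.1 hw1, hw⟩
  have heval : ∀ (u v : ℕ → E d) (x y : E d), Tendsto u (hyperfilter ℕ : Filter ℕ) (𝓝 x) →
      Tendsto v (hyperfilter ℕ : Filter ℕ) (𝓝 y) →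
      Tendsto (fun k => ∑ i, ∑ j, u k i * v k j * b k i j) (hyperfilter ℕ : Filter ℕ)
        (𝓝 (∑ i, ∑ j, x i * y j * T i j)) := by
    intro u v x y hu hv
    refine tendsto_finsetSum _ fun i _ => tendsto_finsetSum _ fun j _ => ?_
    have h1 : Tendsto (fun k => u k i) (hyperfilter ℕ : Filter ℕ) (𝓝 (x i)) :=
      ((EuclideanSpace.proj (𝕜 := ℝ) i).continuous.tendsto x).comp hu
    have h2 : Tendsto (fun k => v k j) (hyperfilter ℕ : Filter ℕ) (𝓝 (y j)) :=
      ((EuclideanSpace.proj (𝕜 := ℝ) j).continuous.tendsto y).comp hv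
    have h3 : Tendsto (fun k => b k i j) (hyperfilter ℕ : Filter ℕ) (𝓝 (T i j)) :=
      tendsto_pi_nhds.1 (tendsto_pi_nhds.1 hT i) j
    exact (h1.mul h2).mul h3
  -- the translated packings
  have hsat : ∀ k, ∃ x ∈ P k, dist x (p k) < 2 := fun k => saturated (hP k) (p k)
  choose x hx hxp using hsat
  set Q : ℕ → Set (E d) := fun k => (fun z => z - x k) '' P k with hQ
  have hQp : ∀ k, IsPacking (Q k) := fun k => isPacking_translate (hP k).2.1 (x k)
  have h0 : ∀ k, (0 : E d) ∈ Q k := fun k => ⟨x k, hx k, sub_self _⟩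
  have hmax : IsMaximal (limSet Q) := by
    apply limSet_maximal hQp h0
    rintro k _ ⟨u, hu, rfl⟩ _
    have h1 : HasNear (P k) u 0 (newton d) := by
      apply hasNear_of_ncard (hP k).2.1
      rw [add_zero, near_of_maximal (hP k) hu]
    have h2 : (0 : ℝ) ≤ 1 / ((k : ℝ) + 1) := by positivity
    exact (h1.mono h2 le_rfl).translate (x k)
  -- the limit form
  obtain ⟨B0, hB0T⟩ := locA_form T
  have hsymm : Symm B0 := by
    intro u v
    rw [hB0T, hB0T]
    refine tendsto_nhds_unique (heval (fun _ => u) (fun _ => v) u v tendsto_const_nhds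
      tendsto_const_nhds) ?_
    refine (heval (fun _ => v) (fun _ => u) v u tendsto_const_nhds tendsto_const_nhds).congr ?_
    intro k
    rw [hb, hb, hB k]
  have hflat : Flat B0 (limSet Q) := by
    rintro z ⟨y, hy, hyz⟩ z' ⟨y', hy', hyz'⟩ ht
    rw [touch_iff] at ht
    rw [hB0T]
    have h1 := heval (fun k => y k - y' k) (fun k => y k - y' k) (z - z') (z - z')
      (hyz.sub hyz') (hyz.sub hyz')
    have h2 : ∀ᶠ k in (hyperfilter ℕ : Filter ℕ),
        ∑ i, ∑ j, (y k - y' k) i * (y k - y' k) j * b k i j = 0 := by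
      have hk : ∀ᶠ k : ℕ in (hyperfilter ℕ : Filter ℕ), ‖z‖ + ‖z'‖ + 3 ≤ (k : ℝ) := by
        have : ∀ᶠ k : ℕ in atTop, ‖z‖ + ‖z'‖ + 3 ≤ (k : ℝ) :=
          tendsto_natCast_atTop_atTop.eventually_ge_atTop _
        rw [← Nat.cofinite_eq_atTop] at this
        exact hyperfilter_le_cofinite this
      have hd : Tendsto (fun k => dist (y k) (y' k)) (hyperfilter ℕ : Filter ℕ)
          (𝓝 (dist z z')) := hyz.dist hyz'
      have hpos : 0 < dist z z' := dist_pos.2 ht.1
      filter_upwards [hk, hyz.eventually (ball_mem_nhds z one_pos),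
        hyz'.eventually (ball_mem_nhds z' one_pos), hd.eventually (lt_mem_nhds hpos),
        hd.eventually (gt_mem_nhds (lt_of_le_of_lt ht.2 (by linarith : (2 : ℝ) < 2 + ε)))]
        with k hk1 hk2 hk3 hk4 hk5
      obtain ⟨u, hu, huy⟩ := hy k
      obtain ⟨u', hu', huy'⟩ := hy' k
      have e1 : u - x k = y k := huy
      have e2 : u' - x k = y' k := huy'
      have e3 : y k - y' k = u - u' := by rw [← e1, ← e2]; abel
      have e4 : dist (y k) (y' k) = dist u u' := by rw [dist_eq_norm, e3, ← dist_eq_norm]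
      have h3 : u ≠ u' := by
        intro h
        rw [e4, h, dist_self] at hk4
        exact lt_irrefl _ hk4
      have h4 : Touch u u' := by
        by_contra hnt
        have h5 := hgap (P k) (hP k) u hu u' hu' h3 hnt
        rw [← e4] at h5
        linarith
      have n1 : ∀ (w v : E d), dist v w < 1 → ‖v‖ ≤ ‖w‖ + 1 := by
        intro w v h
        rw [dist_eq_norm] at h
        have := norm_le_norm_add_norm_sub' v w
        linarith
      have n2 : ∀ w v : E d, w - x k = v → dist w (p k) ≤ ‖v‖ + 2 := by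
        intro w v h
        have h5 : dist w (x k) = ‖v‖ := by rw [dist_eq_norm, h]
        have h6 := dist_triangle w (x k) (p k)
        have h7 := hxp k
        linarith
      have m1 := n1 z (y k) hk2
      have m2 := n1 z' (y' k) hk3
      have m3 := n2 u (y k) e1
      have m4 := n2 u' (y' k) e2
      have p1 := norm_nonneg z
      have p2 := norm_nonneg z'
      have h6 := hF k u hu u' hu' (by linarith) (by linarith) h4
      rw [hb, e3, h6, mul_zero]
    exact tendsto_nhds_unique h1 ((tendsto_congr' h2).2 tendsto_const_nhds)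
  have hz := perfect hmax hsymm hflat
  have hT0 : T = 0 := by
    ext i j
    have h1 := hB0T (EuclideanSpace.basisFun (Fin d) ℝ i) (EuclideanSpace.basisFun (Fin d) ℝ j)
    rw [hz] at h1
    simp only [EuclideanSpace.basisFun_apply, EuclideanSpace.single_apply] at h1
    simpa using h1.symm
  rw [hT0, norm_zero] at hT1
  exact zero_ne_one hT1

end Pool.Agent.W_28d874_h69
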