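import Pool.Agent.W_28d874_h69.FDefs
import Pool.Agent.W_28d874_h69.LocalA
import Pool.Agent.W_28d874_h69.LatRat
import Pool.Agent.W_28d874_h69.LatFin
import Pool.Agent.W_28d874_h69.LatInt

namespace Pool.Agent.W_28d874_h69

open Pool.Agent.W_28d874_h30

variable {d : ℕ}

/-- The bilinear form with matrix `b`. -/
noncomputable def matForm (b : Fin d → Fin d → ℝ) : E d →ₗ[ℝ] E d →ₗ[ℝ] ℝ :=
  LinearMap.mk₂ ℝ (fun v w => ∑ i, ∑ j, b i j * (v i * w j))
    (fun v v' w => by simp only [PiLp.add_apply, add_mul, mul_add, Finset.sum_add_distrib])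
    (fun c v w => by
      simp only [PiLp.smul_apply, smul_eq_mul, Finset.mul_sum]
      exact Finset.sum_congr rfl fun i _ => Finset.sum_congr rfl fun j _ => by ring)
    (fun v w w' => by simp only [PiLp.add_apply, mul_add, Finset.sum_add_distrib])
    (fun c v w => by
      simp only [PiLp.smul_apply, smul_eq_mul, Finset.mul_sum]
      exact Finset.sum_congr rfl fun i _ => Finset.sum_congr rfl fun j _ => by ring)

lemma matForm_apply (b : Fin d → Fin d → ℝ) (v w : E d) :
    matForm b v w = ∑ i, ∑ j, b i j * (v i * w j) := rfl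

lemma matForm_single (b : Fin d → Fin d → ℝ) (i j : Fin d) :
    matForm b (EuclideanSpace.single i 1) (EuclideanSpace.single j 1) = b i j := by
  rw [matForm_apply, Finset.sum_eq_single i, Finset.sum_eq_single j]
  · simp
  · intro k _ hk; simp [hk]
  · intro h; exact absurd (Finset.mem_univ _) h
  · intro k _ hk; simp [hk]
  · intro h; exact absurd (Finset.mem_univ _) h

lemma perfectNear : ∃ R : ℝ, 0 < R ∧ ∀ P : Set (E d), IsMaximal P → ∀ p : E d,
    PerfectNear P p R := by
  obtain ⟨R, hR, h⟩ := perfect_local (d := d)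
  refine ⟨R, hR, fun P hP p b hb hz i j => ?_⟩
  have h0 := h P hP p (matForm b) ?_ ?_
  · rw [← matForm_single b i j, h0]; rfl
  · intro v w
    rw [matForm_apply, matForm_apply, Finset.sum_comm]
    refine Finset.sum_congr rfl fun j _ => Finset.sum_congr rfl fun i _ => ?_
    rw [hb i j]; ring
  · intro x hx y hy h1 h2 ht
    rw [matForm_apply]
    simpa using hz x hx y hy h1 h2 ht

lemma finiteLattices (d : ℕ) : ∃ F : Set (AddSubgroup (E d)), F.Finite ∧
    ∀ L : AddSubgroup (E d), MaxLattice L → ∃ L' ∈ F, Congruent L' L := by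
  obtain ⟨F, hF, h⟩ := finitely_many d
  refine ⟨F, hF, fun L hL => ?_⟩
  obtain ⟨L', hL', f, hf⟩ := h L hL
  refine ⟨L', hL', f, f.isometry, ?_⟩
  rw [hf, AddSubgroup.coe_map]
  rfl

end Pool.Agent.W_28d874_h69
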