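import Pool.Agent.W_28d874_h69.MDefs

namespace Pool.Agent.W_28d874_h69

open Metric Set Filter Topology Pool.Agent.W_28d874_h30

variable {d : ℕ}

/-- Boundedness of a bilinear form in finite dimension. -/
lemma form_bound (B : E d →ₗ[ℝ] E d →ₗ[ℝ] ℝ) : ∃ C : ℝ, 0 ≤ C ∧ ∀ x y, |B x y| ≤ C * ‖x‖ * ‖y‖ := by
  let B' : E d →L[ℝ] E d →L[ℝ] ℝ :=
    LinearMap.toContinuousLinearMap
      ((LinearMap.toContinuousLinearMap : (E d →ₗ[ℝ] ℝ) ≃ₗ[ℝ] (E d →L[ℝ] ℝ)).toLinearMap ∘ₗ B)
  have hB' : ∀ x y, B' x y = B x y := fun x y => rfl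
  refine ⟨‖B'‖, norm_nonneg B', fun x y => ?_⟩
  have h := B'.le_opNorm₂ x y
  rw [hB', Real.norm_eq_abs] at h
  exact h

private lemma formA_expand (B : E d →ₗ[ℝ] E d →ₗ[ℝ] ℝ) (w : E d) :
    B w w = ∑ i, ∑ j, w i * w j *
      B (EuclideanSpace.basisFun (Fin d) ℝ i) (EuclideanSpace.basisFun (Fin d) ℝ j) := by
  have hw : w = ∑ i, w i • EuclideanSpace.basisFun (Fin d) ℝ i := by
    conv_lhs => rw [← (EuclideanSpace.basisFun (Fin d) ℝ).sum_repr w]
    simp
  have h1 : B w w = B (∑ i, w i • EuclideanSpace.basisFun (Fin d) ℝ i)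
      (∑ j, w j • EuclideanSpace.basisFun (Fin d) ℝ j) := by rw [← hw]
  rw [h1]
  simp only [map_sum, LinearMap.sum_apply, map_smul, LinearMap.smul_apply, smul_eq_mul]
  simp only [Finset.mul_sum]
  rw [Finset.sum_comm]
  refine Finset.sum_congr rfl fun i _ => Finset.sum_congr rfl fun j _ => ?_
  ring

/-- A nonnegative form `QF B t` (with `B` symmetric) is `‖A w‖²` for a linear map `A`: take an
orthonormal basis `b` of eigenvectors of the symmetric operator representing `QF B t`, with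
eigenvalues `λ i ≥ 0`, and `A w = ∑ √(λ i) ⟪b i, w⟫ b i` (or use the square root of the positive
semidefinite matrix of the form in the standard basis). -/
lemma exists_sqrt (B : E d →ₗ[ℝ] E d →ₗ[ℝ] ℝ) (hB : Symm B) (t : ℝ) (h : ∀ w, 0 ≤ QF B t w) :
    ∃ A : E d →ₗ[ℝ] E d, ∀ w, ‖A w‖ ^ 2 = QF B t w := by
  classical
  let e : Fin d → E d := fun i => EuclideanSpace.basisFun (Fin d) ℝ i
  let M : Matrix (Fin d) (Fin d) ℝ := fun i j => (if i = j then 1 else 0) + t * B (e i) (e j)
  have hQ : ∀ w : E d, QF B t w = ∑ i, ∑ j, w i * w j * M i j := by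
    intro w
    have h1 : ‖w‖ ^ 2 = ∑ i, ∑ j, w i * w j * (if i = j then (1 : ℝ) else 0) := by
      rw [EuclideanSpace.real_norm_sq_eq]
      refine Finset.sum_congr rfl fun i _ => ?_
      simp [sq]
    unfold QF
    rw [h1, formA_expand B w, Finset.mul_sum, ← Finset.sum_add_distrib]
    refine Finset.sum_congr rfl fun i _ => ?_
    rw [Finset.mul_sum, ← Finset.sum_add_distrib]
    refine Finset.sum_congr rfl fun j _ => ?_
    show _ = w i * w j * ((if i = j then 1 else 0) + t * B (e i) (e j))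
    ring
  have hM : M.PosSemidef := by
    refine Matrix.PosSemidef.of_dotProduct_mulVec_nonneg ?_ ?_
    · ext i j
      show star (M j i) = M i j
      rw [star_trivial]
      show (if j = i then (1 : ℝ) else 0) + t * B (e j) (e i) =
        (if i = j then (1 : ℝ) else 0) + t * B (e i) (e j)
      rw [hB (e j) (e i)]
      by_cases hij : i = j
      · subst hij; rfl
      · rw [if_neg hij, if_neg (Ne.symm hij)]
    · intro x
      have h2 := h (WithLp.toLp 2 x)
      rw [hQ] at h2
      have h3 : star x ⬝ᵥ M.mulVec x = ∑ i, ∑ j, x i * x j * M i j := by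
        simp only [dotProduct, Matrix.mulVec, star_trivial]
        refine Finset.sum_congr rfl fun i _ => ?_
        rw [Finset.mul_sum]
        refine Finset.sum_congr rfl fun j _ => ?_
        ring
      rw [h3]
      exact h2
  obtain ⟨C, hC⟩ : ∃ C : Matrix (Fin d) (Fin d) ℝ, M = star C * C := by
    open scoped MatrixOrder Matrix.Norms.L2Operator in
      exact CStarAlgebra.nonneg_iff_eq_star_mul_self.mp hM.nonneg
  refine ⟨Matrix.toEuclideanLin C, fun w => ?_⟩
  rw [hQ, EuclideanSpace.real_norm_sq_eq]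
  have h4 : ∀ k, (Matrix.toEuclideanLin C w) k = ∑ i, C k i * w i := by
    intro k
    rfl
  have h5 : ∀ i j, M i j = ∑ k, C k i * C k j := by
    intro i j
    rw [hC]
    simp [Matrix.mul_apply, Matrix.star_eq_conjTranspose]
  simp only [h4, h5]
  have h6 : ∀ k, (∑ i, C k i * w i) ^ 2 = ∑ i, ∑ j, w i * w j * (C k i * C k j) := by
    intro k
    rw [sq, Finset.sum_mul_sum]
    refine Finset.sum_congr rfl fun i _ => Finset.sum_congr rfl fun j _ => ?_
    ring
  simp only [h6, Finset.mul_sum]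
  rw [Finset.sum_comm]
  refine Finset.sum_congr rfl fun i _ => ?_
  rw [Finset.sum_comm]

end Pool.Agent.W_28d874_h69
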