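import Pool.Agent.W_28d874_h69.FormA

namespace Pool.Agent.W_28d874_h69

open Metric Set Filter Topology Pool.Agent.W_28d874_h30

variable {d : ℕ}

/-- The polar form of `QF B t`. -/
private noncomputable def FormB_b (B : E d →ₗ[ℝ] E d →ₗ[ℝ] ℝ) (t : ℝ) (x y : E d) : ℝ :=
  inner ℝ x y + t * B x y

private lemma FormB_add {B : E d →ₗ[ℝ] E d →ₗ[ℝ] ℝ} (hB : Symm B) (t : ℝ) (x y : E d) :
    QF B t (x + y) = QF B t x + 2 * FormB_b B t x y + QF B t y := by
  have h := hB x y
  unfold QF FormB_b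
  rw [norm_add_sq_real]
  simp only [map_add, LinearMap.add_apply]
  rw [← h]
  ring

private lemma FormB_smul (B : E d →ₗ[ℝ] E d →ₗ[ℝ] ℝ) (t s : ℝ) (x : E d) :
    QF B t (s • x) = s ^ 2 * QF B t x := by
  unfold QF
  rw [norm_smul, mul_pow, Real.norm_eq_abs, sq_abs]
  simp only [map_smul, LinearMap.smul_apply, smul_eq_mul]
  ring

private lemma FormB_b_smul (B : E d →ₗ[ℝ] E d →ₗ[ℝ] ℝ) (t s : ℝ) (x y : E d) :
    FormB_b B t (s • x) y = s * FormB_b B t x y := by
  unfold FormB_b
  rw [real_inner_smul_left, map_smul, LinearMap.smul_apply, smul_eq_mul]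
  ring

private lemma FormB_b_smul_right (B : E d →ₗ[ℝ] E d →ₗ[ℝ] ℝ) (t s : ℝ) (x y : E d) :
    FormB_b B t x (s • y) = s * FormB_b B t x y := by
  unfold FormB_b
  rw [real_inner_smul_right, map_smul, smul_eq_mul]
  ring

private lemma FormB_bd (B : E d →ₗ[ℝ] E d →ₗ[ℝ] ℝ) (t : ℝ) :
    ∃ D : ℝ, 1 ≤ D ∧ (∀ x y, |FormB_b B t x y| ≤ D * ‖x‖ * ‖y‖) ∧
      ∀ x, |QF B t x| ≤ D * ‖x‖ ^ 2 := by
  obtain ⟨C, hC0, hC⟩ := form_bound B
  have key : ∀ x y, |FormB_b B t x y| ≤ (1 + |t| * C) * ‖x‖ * ‖y‖ := by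
    intro x y
    unfold FormB_b
    have h1 := abs_real_inner_le_norm x y
    have h2 := hC x y
    have h3 : |t * B x y| ≤ |t| * (C * ‖x‖ * ‖y‖) := by
      rw [abs_mul]
      exact mul_le_mul_of_nonneg_left h2 (abs_nonneg t)
    have h4 := abs_add_le (inner ℝ x y) (t * B x y)
    nlinarith
  refine ⟨1 + |t| * C, by nlinarith [mul_nonneg (abs_nonneg t) hC0], key, ?_⟩
  intro x
  have h := key x x
  unfold FormB_b at h
  unfold QF
  rw [real_inner_self_eq_norm_sq] at h
  nlinarith

/-- Positivity. Let `P` be a maximal packing which is also a packing for `QF B t`. Then `QF B t` is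
positive definite.
Step 1: `QF B t w ≥ 0` for all `w`. Suppose `QF B t w < 0`. For `k : ℕ` choose (`saturated`)
`x k ∈ P` with `dist (x k) ((10 k) • w) < 2`, `r k = x k - (10 k) • w`, `‖r k‖ < 2`. Then
`x k - x 0 = (10 k) • w + (r k - r 0)` and `QF B t (x k - x 0) = 100 k² QF B t w + 20 k β + γ` with
`β, γ` bounded independently of `k` (`form_bound`), which is negative for large `k`; but for large `k`
also `x k ≠ x 0`, so `4 ≤ QF B t (x k - x 0)`, a contradiction.
Step 2: suppose `QF B t w = 0`, `w ≠ 0`; scale so that `‖w‖ = 1`. From step 1 applied to `z + s • w`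
and `z - s • w` for all real `s`, the cross term vanishes, so `QF B t (z + s • w) = QF B t z` for all
`z, s`. Choose `x k, r k` as above. The `r k` lie in a compact ball, so for every `δ > 0` there are
`k ≠ l` with `‖r k - r l‖ < δ`; then `x k ≠ x l` (as `‖x k - x l‖ ≥ 10 - 4`) and
`4 ≤ QF B t (x k - x l) = QF B t (r k - r l) ≤ (1 + |t| C) δ²`, a contradiction for small `δ`. -/
lemma packQ_pos {P : Set (E d)} (hP : IsMaximal P) {B : E d →ₗ[ℝ] E d →ₗ[ℝ] ℝ} (hB : Symm B)
    {t : ℝ} (h : PackQ B P t) : ∀ w : E d, w ≠ 0 → 0 < QF B t w := by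
  obtain ⟨D, hD1, hDb, hDq⟩ := FormB_bd B t
  have hzero : QF B t 0 = 0 := by
    unfold QF
    simp
  have hPnn : ∀ x ∈ P, ∀ y ∈ P, 0 ≤ QF B t (x - y) := by
    intro x hx y hy
    by_cases hxy : x = y
    · rw [hxy, sub_self, hzero]
    · linarith [h x hx y hy hxy]
  -- Step 1
  have step1 : ∀ w : E d, 0 ≤ QF B t w := by
    intro w
    by_contra hneg
    push Not at hneg
    have hest : ∀ s : ℝ, 0 ≤ s → 0 ≤ s ^ 2 * QF B t w + 8 * D * ‖w‖ * s + 16 * D := by
      intro s hs
      obtain ⟨x, hx, hxd⟩ := saturated hP (s • w)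
      obtain ⟨y, hy, hyd⟩ := saturated hP (0 : E d)
      have h1 := hPnn x hx y hy
      rw [dist_eq_norm] at hxd hyd
      rw [sub_zero] at hyd
      set ρ : E d := (x - s • w) - y with hρ
      have hρn : ‖ρ‖ ≤ 4 := by
        have := norm_sub_le (x - s • w) y
        linarith
      have hxy : x - y = s • w + ρ := by
        rw [hρ]; abel
      rw [hxy, FormB_add hB, FormB_smul, FormB_b_smul] at h1
      have h2 := hDb w ρ
      have h3 := hDq ρ
      have h4 : FormB_b B t w ρ ≤ D * ‖w‖ * 4 := by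
        refine (le_abs_self _).trans (h2.trans ?_)
        have : 0 ≤ D * ‖w‖ := by positivity
        exact mul_le_mul_of_nonneg_left hρn this
      have h5 : QF B t ρ ≤ 16 * D := by
        refine (le_abs_self _).trans (h3.trans ?_)
        have : ‖ρ‖ ^ 2 ≤ 16 := by
          have := norm_nonneg ρ
          nlinarith
        nlinarith
      have h6 : s * FormB_b B t w ρ ≤ s * (D * ‖w‖ * 4) := mul_le_mul_of_nonneg_left h4 hs
      nlinarith
    set a : ℝ := - QF B t w with ha
    have ha0 : 0 < a := by rw [ha]; linarith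
    set c : ℝ := 8 * D * ‖w‖ + 16 * D + 1 with hc
    have hc0 : 0 ≤ 8 * D * ‖w‖ := by positivity
    set s : ℝ := c / a + 1 with hs
    have hs1 : 1 ≤ s := by
      rw [hs]
      have : 0 ≤ c / a := by
        apply div_nonneg _ ha0.le
        rw [hc]; linarith
      linarith
    have hsa : c ≤ s * a := by
      rw [hs, add_mul, div_mul_cancel₀ _ ha0.ne']
      linarith
    have h7 := hest s (by linarith)
    have h8 : s * c ≤ s ^ 2 * a := by
      have : s * c ≤ s * (s * a) := mul_le_mul_of_nonneg_left hsa (by linarith)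
      nlinarith
    have h9 : QF B t w = - a := by rw [ha]; ring
    rw [h9] at h7
    have h10 : 16 * D + 1 ≤ s * (16 * D + 1) := by nlinarith
    nlinarith
  -- Step 2
  intro w hw
  rcases lt_or_eq_of_le (step1 w) with h0 | h0
  · exact h0
  exfalso
  have hq0 : QF B t w = 0 := h0.symm
  have hcross : ∀ z : E d, FormB_b B t z w = 0 := by
    intro z
    have hall : ∀ s : ℝ, 0 ≤ QF B t z + 2 * s * FormB_b B t z w := by
      intro s
      have h1 := step1 (z + s • w)
      rw [FormB_add hB, FormB_smul, FormB_b_smul_right, hq0] at h1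
      linarith
    by_contra hne
    have h2 := hall (-(QF B t z + 1) / (2 * FormB_b B t z w))
    have h3 : 2 * (-(QF B t z + 1) / (2 * FormB_b B t z w)) * FormB_b B t z w
        = -(QF B t z + 1) := by
      field_simp
    rw [h3] at h2
    linarith
  have hinv : ∀ (z : E d) (s : ℝ), QF B t (z + s • w) = QF B t z := by
    intro z s
    rw [FormB_add hB, FormB_smul, FormB_b_smul_right, hq0, hcross]
    ring
  have hwn : 0 < ‖w‖ := norm_pos_iff.2 hw
  choose x hx hxd using fun k : ℕ => saturated hP (((k : ℝ) * (10 / ‖w‖)) • w)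
  set r : ℕ → E d := fun k => x k - ((k : ℝ) * (10 / ‖w‖)) • w with hr
  have hrn : ∀ k, ‖r k‖ < 2 := by
    intro k
    have := hxd k
    rwa [dist_eq_norm] at this
  have hmem : ∀ k, r k ∈ closedBall (0 : E d) 2 := by
    intro k
    rw [mem_closedBall, dist_zero_right]
    exact (hrn k).le
  obtain ⟨a, _, φ, hφ, hlim⟩ := (isCompact_closedBall (0 : E d) 2).tendsto_subseq hmem
  have hcau := hlim.cauchySeq
  rw [Metric.cauchySeq_iff'] at hcau
  have hD0 : 0 < D := by linarith
  obtain ⟨N, hN⟩ := hcau (1 / D) (by positivity)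
  have h1 := hN (N + 1) (by omega)
  have hlt : φ N < φ (N + 1) := hφ (by omega)
  set k := φ (N + 1) with hk
  set l := φ N with hl
  have h2 : ‖r k - r l‖ < 1 / D := by
    have := h1
    rw [dist_eq_norm] at this
    exact this
  have hdiff : x k - x l = (r k - r l) + (((k : ℝ) - l) * (10 / ‖w‖)) • w := by
    rw [hr]
    simp only
    rw [sub_mul, sub_smul]
    abel
  have hkl : (1 : ℝ) ≤ (k : ℝ) - l := by
    have : l + 1 ≤ k := hlt
    have : ((l + 1 : ℕ) : ℝ) ≤ (k : ℝ) := by exact_mod_cast this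
    push_cast at this
    linarith
  have hne : x k ≠ x l := by
    intro heq
    have h3 : (((k : ℝ) - l) * (10 / ‖w‖)) • w = -(r k - r l) := by
      have : (r k - r l) + (((k : ℝ) - l) * (10 / ‖w‖)) • w = 0 := by
        rw [← hdiff, heq, sub_self]
      exact eq_neg_of_add_eq_zero_right this
    have h4 : ‖(((k : ℝ) - l) * (10 / ‖w‖)) • w‖ = ((k : ℝ) - l) * 10 := by
      rw [norm_smul, Real.norm_eq_abs, abs_of_nonneg (by positivity)]
      field_simp
    have h5 : ‖(((k : ℝ) - l) * (10 / ‖w‖)) • w‖ < 4 := by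
      rw [h3, norm_neg]
      have := norm_sub_le (r k) (r l)
      linarith [hrn k, hrn l]
    rw [h4] at h5
    linarith
  have h6 := h (x k) (hx k) (x l) (hx l) hne
  rw [hdiff, hinv] at h6
  have h7 := (le_abs_self _).trans (hDq (r k - r l))
  have h8 : ‖r k - r l‖ ^ 2 ≤ (1 / D) ^ 2 := by
    have := norm_nonneg (r k - r l)
    exact pow_le_pow_left₀ this h2.le 2
  have h9 : D * ‖r k - r l‖ ^ 2 ≤ D * (1 / D) ^ 2 := mul_le_mul_of_nonneg_left h8 hD0.le
  have h10 : D * (1 / D) ^ 2 = 1 / D := by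
    field_simp
  have h11 : 1 / D ≤ 1 := by
    rw [div_le_one hD0]; exact hD1
  linarith

/-- A positive definite form is bounded below by `c ‖w‖²` (compactness of the unit sphere). -/
lemma pos_bound {B : E d →ₗ[ℝ] E d →ₗ[ℝ] ℝ} {t : ℝ} (h : ∀ w : E d, w ≠ 0 → 0 < QF B t w) :
    ∃ c : ℝ, 0 < c ∧ ∀ w : E d, c * ‖w‖ ^ 2 ≤ QF B t w := by
  obtain ⟨C, hC0, hC⟩ := form_bound B
  have hcont : Continuous fun w : E d => QF B t w := by
    have hc2 : Continuous fun w : E d => (LinearMap.mkContinuous₂ B C hC w) w :=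
      (LinearMap.mkContinuous₂ B C hC).continuous.clm_apply continuous_id
    have hc3 : (fun w : E d => QF B t w) =
        fun w : E d => ‖w‖ ^ 2 + t * (LinearMap.mkContinuous₂ B C hC w) w := by
      funext w
      unfold QF
      rw [LinearMap.mkContinuous₂_apply]
    rw [hc3]
    exact (continuous_norm.pow 2).add (continuous_const.mul hc2)
  have hzero : QF B t 0 = 0 := by
    unfold QF
    simp
  rcases (sphere (0 : E d) 1).eq_empty_or_nonempty with he | hne
  · refine ⟨1, one_pos, fun w => ?_⟩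
    have hw : w = 0 := by
      by_contra hw
      have : ‖w‖⁻¹ • w ∈ sphere (0 : E d) 1 := by
        rw [mem_sphere, dist_zero_right, norm_smul, norm_inv, norm_norm,
          inv_mul_cancel₀ (norm_ne_zero_iff.2 hw)]
      rw [he] at this
      exact this
    rw [hw, hzero]
    simp
  · obtain ⟨w0, hw0, hmin⟩ := (isCompact_sphere (0 : E d) 1).exists_isMinOn hne hcont.continuousOn
    have hw0n : w0 ≠ 0 := by
      intro h0
      rw [mem_sphere, dist_zero_right, h0, norm_zero] at hw0
      exact zero_ne_one hw0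
    refine ⟨QF B t w0, h w0 hw0n, fun w => ?_⟩
    by_cases hw : w = 0
    · rw [hw, hzero]; simp
    · have hwn : ‖w‖ ≠ 0 := norm_ne_zero_iff.2 hw
      have hm : ‖w‖⁻¹ • w ∈ sphere (0 : E d) 1 := by
        rw [mem_sphere, dist_zero_right, norm_smul, norm_inv, norm_norm,
          inv_mul_cancel₀ hwn]
      have h1 : QF B t w0 ≤ QF B t (‖w‖⁻¹ • w) := hmin hm
      rw [FormB_smul] at h1
      have h2 : QF B t w0 * ‖w‖ ^ 2 ≤ (‖w‖⁻¹ ^ 2 * QF B t w) * ‖w‖ ^ 2 :=
        mul_le_mul_of_nonneg_right h1 (by positivity)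
      have h3 : (‖w‖⁻¹ ^ 2 * QF B t w) * ‖w‖ ^ 2 = QF B t w := by
        field_simp
      linarith

end Pool.Agent.W_28d874_h69
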