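import Pool.Agent.W_28d874_h69.MDefs

namespace Pool.Agent.W_28d874_h69

open Metric Set Filter Topology Pool.Agent.W_28d874_h30

variable {d : ℕ}

/-- Uniform gap. Take `k` from `exists_eps_le_newton` and `ε = 1/(k+1)`. If `x, y` do not touch and
`dist x y < 2 + ε`, then `{z ∈ P | z ≠ x ∧ dist x z ≤ 2 + ε}` contains the `newton d` balls touching
`x` (`near_of_maximal`) and `y`, so it has at least `newton d + 1` elements
(`finite_of_bounded` gives finiteness), and `hasNear_of_ncard` contradicts the choice of `k`. -/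
lemma unifGap : ∃ ε : ℝ, 0 < ε ∧ ∀ P : Set (E d), IsMaximal P → ∀ x ∈ P, ∀ y ∈ P, x ≠ y →
    ¬ Touch x y → 2 + ε ≤ dist x y := by
  obtain ⟨k, hk⟩ := exists_eps_le_newton (d := d)
  refine ⟨1 / ((k : ℝ) + 1), by positivity, fun P hP x hx y hy hxy ht => ?_⟩
  by_contra hcon
  push Not at hcon
  have hk0 : 0 < 1 / ((k : ℝ) + 1) := by positivity
  apply hk P hP.2.1 x hx
  apply hasNear_of_ncard hP.2.1
  set N := {z ∈ P | z ≠ x ∧ dist x z ≤ 2} with hN
  have hNc : N.ncard = newton d := near_of_maximal hP hx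
  have hNfin : N.Finite := by
    refine (finite_of_bounded hP.2.1 x 2).subset fun z hz => ⟨hz.1, ?_⟩
    rw [dist_comm]; exact hz.2.2
  have hyN : y ∉ N := by
    intro h
    exact ht (touch_iff.2 ⟨hxy, h.2.2⟩)
  have h8 : {z ∈ P | z ≠ x ∧ dist x z ≤ 2 + 1 / ((k : ℝ) + 1)}.Finite := by
    refine (finite_of_bounded hP.2.1 x (2 + 1 / ((k : ℝ) + 1))).subset fun z hz => ⟨hz.1, ?_⟩
    rw [dist_comm]; exact hz.2.2
  have h7 : insert y N ⊆ {z ∈ P | z ≠ x ∧ dist x z ≤ 2 + 1 / ((k : ℝ) + 1)} := by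
    rintro z (rfl | hz)
    · exact ⟨hy, hxy.symm, hcon.le⟩
    · exact ⟨hz.1, hz.2.1, by linarith [hz.2.2]⟩
  have h9 := Set.ncard_le_ncard h7 h8
  rwa [Set.ncard_insert_of_notMem hyN hNfin, hNc] at h9

/-- Greedy routing. Apply `exists_dir` at `x` with the unit vector in direction `y - x` (note
`2 ≤ dist x y` by the packing property): there is `z ∈ P` with `dist x z = 2` and
`⟪z - x, y - x⟫ > ‖y - x‖`, so `‖z - y‖² = 4 - 2 ⟪z - x, y - x⟫ + ‖y - x‖² < 4 - 2‖y - x‖ +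
‖y - x‖² ≤ ‖y - x‖²`. -/
lemma greedy {P : Set (E d)} (hP : IsMaximal P) {x y : E d} (hx : x ∈ P) (hy : y ∈ P)
    (hxy : x ≠ y) : ∃ z ∈ P, Touch x z ∧ dist z y < dist x y := by
  have h2 : 2 ≤ dist x y := isPacking_iff.1 hP.2.1 x hx y hy hxy
  set r := dist x y with hr
  have hrpos : 0 < r := by linarith
  have hrn : ‖y - x‖ = r := by rw [hr, dist_comm, dist_eq_norm]
  have hun : ‖(1 / r) • (y - x)‖ = 1 := by
    rw [norm_smul, hrn, Real.norm_of_nonneg (by positivity)]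
    field_simp
  obtain ⟨z, hzP, hxz, hzu⟩ := exists_dir hP hx hun
  rw [inner_smul_right] at hzu
  have h3 : r < inner ℝ (z - x) (y - x) := by
    have h4 := mul_lt_mul_of_pos_left hzu hrpos
    have h5 : r * (1 / r * inner ℝ (z - x) (y - x)) = inner ℝ (z - x) (y - x) := by
      field_simp
    rw [h5] at h4
    linarith
  have h1 : ‖z - x‖ = 2 := by rw [← dist_eq_norm, dist_comm]; exact hxz
  refine ⟨z, hzP, touch_iff.2 ⟨?_, hxz.le⟩, ?_⟩
  · intro h
    rw [h, dist_self] at hxz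
    norm_num at hxz
  · have h6 : dist z y ^ 2 < r ^ 2 := by
      have h7 : z - y = (z - x) - (y - x) := by abel
      rw [dist_eq_norm, h7, norm_sub_sq_real, h1, hrn]
      nlinarith
    exact lt_of_pow_lt_pow_left₀ 2 hrpos.le h6

end Pool.Agent.W_28d874_h69
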