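import Pool.Agent.W_28d874_h69.MDefs

namespace Pool.Agent.W_28d874_h69

open Metric Set Filter Topology Pool.Agent.W_28d874_h30

variable {d : ℕ}

/-- Let `P` be a maximal packing and `A` linear with `2 ≤ ‖A (x - y)‖` for different `x, y ∈ P` and
`‖A (x - y)‖ = 2` for touching `x, y ∈ P`. Then `A '' P` is maximal: it is a packing
(`isPacking_iff`), `A` is injective on `P`, the balls touching `x` are mapped to different balls
touching `A x`, so `A x` touches at least `newton d` balls, and at most `newton d` by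
`HasNear.le_newton` (via `hasNear_of_ncard`). Moreover the balls touching `A x` are exactly the images
of the balls touching `x`, since the latter are `newton d` of the former
(`Set.eq_of_subset_of_ncard_le`), so nontouching balls are mapped to nontouching balls. -/
lemma image_maximal {P : Set (E d)} (hP : IsMaximal P) (A : E d →ₗ[ℝ] E d)
    (h1 : ∀ x ∈ P, ∀ y ∈ P, x ≠ y → 2 ≤ ‖A (x - y)‖)
    (h2 : ∀ x ∈ P, ∀ y ∈ P, Touch x y → ‖A (x - y)‖ = 2) :
    IsMaximal (A '' P) ∧ ∀ x ∈ P, ∀ y ∈ P, x ≠ y → ¬ Touch x y → ¬ Touch (A x) (A y) := by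
  have hdist : ∀ x y : E d, dist (A x) (A y) = ‖A (x - y)‖ := by
    intro x y
    rw [dist_eq_norm, map_sub]
  have hne : ∀ x ∈ P, ∀ y ∈ P, x ≠ y → A x ≠ A y := by
    intro x hx y hy hxy h
    have h3 := h1 x hx y hy hxy
    rw [← hdist, h, dist_self] at h3
    linarith
  have hinj : Set.InjOn A P := by
    intro x hx y hy h
    by_contra hxy
    exact hne x hx y hy hxy h
  have hpack : IsPacking (A '' P) := by
    rw [isPacking_iff]
    rintro _ ⟨x, hx, rfl⟩ _ ⟨y, hy, rfl⟩ hxy
    rw [hdist]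
    exact h1 x hx y hy fun h => hxy (by rw [h])
  have hkey : ∀ x ∈ P, {z ∈ A '' P | Touch (A x) z} = A '' {y ∈ P | Touch x y} ∧
      {z ∈ A '' P | Touch (A x) z}.ncard = newton d := by
    intro x hx
    have hsub : A '' {y ∈ P | Touch x y} ⊆ {z ∈ A '' P | Touch (A x) z} := by
      rintro _ ⟨y, ⟨hy, hxy⟩, rfl⟩
      refine ⟨⟨y, hy, rfl⟩, ?_⟩
      rw [touch_iff]
      refine ⟨hne x hx y hy hxy.1, ?_⟩
      rw [hdist, h2 x hx y hy hxy]
    have hcard : (A '' {y ∈ P | Touch x y}).ncard = newton d := by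
      rw [Set.ncard_image_of_injOn (hinj.mono fun y hy => hy.1)]
      exact hP.2.2 x hx
    have hfin : {z ∈ A '' P | Touch (A x) z}.Finite := by
      refine (finite_of_bounded hpack (A x) 2).subset fun z hz => ⟨hz.1, ?_⟩
      have h3 := (touch_iff.1 hz.2).2
      rwa [dist_comm] at h3
    have heq : {z ∈ A '' P | Touch (A x) z} =
        {z ∈ A '' P | z ≠ A x ∧ dist (A x) z ≤ 2 + 0} := by
      ext z
      simp only [Set.mem_setOf_eq, touch_iff, add_zero]
      constructor
      · rintro ⟨h3, h4, h5⟩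
        exact ⟨h3, h4.symm, h5⟩
      · rintro ⟨h3, h4, h5⟩
        exact ⟨h3, h4.symm, h5⟩
    have hle : {z ∈ A '' P | Touch (A x) z}.ncard ≤ newton d := by
      refine HasNear.le_newton hpack (x := A x) ⟨x, hx, rfl⟩ (hasNear_of_ncard hpack ?_)
      rw [heq]
    have he : A '' {y ∈ P | Touch x y} = {z ∈ A '' P | Touch (A x) z} :=
      Set.eq_of_subset_of_ncard_le hsub (by rw [hcard]; exact hle) hfin
    exact ⟨he.symm, by rw [← he, hcard]⟩
  refine ⟨⟨hP.1.image A, hpack, ?_⟩, ?_⟩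
  · rintro _ ⟨x, hx, rfl⟩
    exact (hkey x hx).2
  · intro x hx y hy hxy hn ht
    have h3 : A y ∈ {z ∈ A '' P | Touch (A x) z} := ⟨⟨y, hy, rfl⟩, ht⟩
    rw [(hkey x hx).1] at h3
    obtain ⟨y', hy', he⟩ := h3
    have h4 : y' = y := hinj hy'.1 hy he
    rw [h4] at hy'
    exact hn hy'.2

end Pool.Agent.W_28d874_h69
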