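import Pool.Agent.W_28d874_h69.Perfect
import Pool.Agent.W_28d874_h69.LatA

namespace Pool.Agent.W_28d874_h69

open Metric Set Filter Topology Pool.Agent.W_28d874_h30

variable {d : ℕ}

/-- The code of a maximal lattice `L` with basis `v` of minimal vectors: the integer vectors `c` with
`∑ c i v i = D u` for a minimal vector `u` of `L`. -/
def code (D : ℕ) (L : AddSubgroup (E d)) (v : Module.Basis (Fin d) ℝ (E d)) : Set (Fin d → ℤ) :=
  {c | ∃ u ∈ L, ‖u‖ = 2 ∧ (D : ℝ) • u = ∑ i, (c i : ℝ) • v i}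

private lemma latC_map {D : ℕ} (hD0 : 0 < D) {L L' : AddSubgroup (E d)}
    (v v' : Module.Basis (Fin d) ℝ (E d))
    (hD : ∀ x ∈ L, ∃ c : Fin d → ℤ, (D : ℝ) • x = ∑ i, (c i : ℝ) • v i)
    (hcode : code D L v = code D L' v') (u : E d) (hu : u ∈ L) (hu2 : ‖u‖ = 2) :
    v.equiv v' (Equiv.refl _) u ∈ L' ∧ ‖v.equiv v' (Equiv.refl _) u‖ = 2 := by
  obtain ⟨c, hc⟩ := hD u hu
  have hmem : c ∈ code D L v := ⟨u, hu, hu2, hc⟩
  rw [hcode] at hmem
  obtain ⟨u', hu', hu2', hc'⟩ := hmem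
  have hD1 : (D : ℝ) ≠ 0 := by exact_mod_cast hD0.ne'
  have h1 : (D : ℝ) • v.equiv v' (Equiv.refl _) u = (D : ℝ) • u' := by
    rw [← map_smul, hc, hc', map_sum]
    refine Finset.sum_congr rfl fun i _ => ?_
    rw [map_smul, Module.Basis.equiv_apply, Equiv.refl_apply]
  have h2 : v.equiv v' (Equiv.refl _) u = u' := smul_right_injective (E d) hD1 h1
  rw [h2]
  exact ⟨hu', hu2'⟩

/-- Equal codes give isometric lattices. Let `f` be the linear map with `f (v i) = v' i`. If `u` is a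
minimal vector of `L`, write `D u = ∑ c i v i` (`hD`), `c ∈ code D L v = code D L' v'`, so there is a
minimal vector `u'` of `L'` with `D u' = ∑ c i v' i = f (D u)`, i.e. `f u = u'`. So `f` maps minimal
vectors of `L` to minimal vectors of `L'`, `‖f (x - y)‖ = 2` for touching `x, y ∈ L`, and
`B x y = ⟪f x, f y⟫ - ⟪x, y⟫` is symmetric and flat, `B = 0` by `perfect`: `f` is an isometry
(a linear isometry equivalence, as it maps a basis to a basis). By symmetry the minimal vectors of `L'`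
are exactly the images of those of `L`, and `closure_min` gives `L' = f(L)`. -/
lemma isometric_of_code {D : ℕ} (hD0 : 0 < D) {L L' : AddSubgroup (E d)}
    (hL : IsMaximal (L : Set (E d))) (hL' : IsMaximal (L' : Set (E d)))
    (v v' : Module.Basis (Fin d) ℝ (E d)) (hv : ∀ i, v i ∈ L ∧ ‖v i‖ = 2)
    (hv' : ∀ i, v' i ∈ L' ∧ ‖v' i‖ = 2)
    (hD : ∀ x ∈ L, ∃ c : Fin d → ℤ, (D : ℝ) • x = ∑ i, (c i : ℝ) • v i)
    (hD' : ∀ x ∈ L', ∃ c : Fin d → ℤ, (D : ℝ) • x = ∑ i, (c i : ℝ) • v' i)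
    (hcode : code D L v = code D L' v') :
    ∃ f : E d ≃ₗᵢ[ℝ] E d, L' = L.map (f.toLinearEquiv : E d →+ E d) := by
  set g : E d ≃ₗ[ℝ] E d := v.equiv v' (Equiv.refl _) with hg
  have hmap := latC_map hD0 v v' hD hcode
  have hmap' := latC_map hD0 v' v hD' hcode.symm
  have hsymm : v'.equiv v (Equiv.refl _) = g.symm := by
    rw [hg, Module.Basis.equiv_symm]; rfl
  rw [← hg] at hmap
  rw [hsymm] at hmap'
  -- the bilinear form
  set B : E d →ₗ[ℝ] E d →ₗ[ℝ] ℝ :=
    (innerₗ (E d)).compl₁₂ (g : E d →ₗ[ℝ] E d) (g : E d →ₗ[ℝ] E d) - innerₗ (E d) with hBdef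
  have hBa : ∀ x y, B x y = inner ℝ (g x) (g y) - inner ℝ x y := by
    intro x y
    simp [hBdef]
  have hBs : Symm B := by
    intro x y
    rw [hBa, hBa, real_inner_comm, real_inner_comm x y]
  have hBf : Flat B (L : Set (E d)) := by
    intro x hx y hy hxy
    have h2 : ‖x - y‖ = 2 := by
      rw [touch_iff] at hxy
      have h3 := isPacking_iff.1 hL.2.1 x hx y hy hxy.1
      rw [← dist_eq_norm]
      exact le_antisymm hxy.2 h3
    have h4 := (hmap (x - y) (L.sub_mem hx hy) h2).2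
    rw [hBa, real_inner_self_eq_norm_sq, real_inner_self_eq_norm_sq, h2, h4, sub_self]
  have hB0 := perfect hL hBs hBf
  have hnorm : ∀ x, ‖g x‖ = ‖x‖ := by
    intro x
    have h1 := hBa x x
    rw [hB0] at h1
    simp only [LinearMap.zero_apply] at h1
    rw [real_inner_self_eq_norm_sq, real_inner_self_eq_norm_sq] at h1
    have h2 : ‖g x‖ ^ 2 = ‖x‖ ^ 2 := by linarith
    exact (pow_left_inj₀ (norm_nonneg _) (norm_nonneg _) two_ne_zero).1 h2
  refine ⟨⟨g, hnorm⟩, ?_⟩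
  rw [← closure_min hL', ← closure_min hL, AddMonoidHom.map_closure]
  congr 1
  ext w
  constructor
  · rintro ⟨hw, hw2⟩
    exact ⟨g.symm w, hmap' w hw hw2, g.apply_symm_apply w⟩
  · rintro ⟨u, ⟨hu, hu2⟩, rfl⟩
    exact hmap u hu hu2

end Pool.Agent.W_28d874_h69
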