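import Pool.Agent.W_28d874_h30.Stable
import Pool.Agent.W_28d874_h30.Lower

namespace Pool.Agent.W_28d874_h69

open Metric Set Filter Topology Pool.Agent.W_28d874_h30

/-- The quadratic form `w ↦ ‖w‖² + t B(w,w)`. -/
noncomputable def QF {d : ℕ} (B : E d →ₗ[ℝ] E d →ₗ[ℝ] ℝ) (t : ℝ) (w : E d) : ℝ :=
  ‖w‖ ^ 2 + t * B w w

/-- The set `P` is a packing with respect to the form `QF B t`. -/
def PackQ {d : ℕ} (B : E d →ₗ[ℝ] E d →ₗ[ℝ] ℝ) (P : Set (E d)) (t : ℝ) : Prop :=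
  ∀ x ∈ P, ∀ y ∈ P, x ≠ y → 4 ≤ QF B t (x - y)

/-- `B` vanishes on all contact vectors of `P`. -/
def Flat {d : ℕ} (B : E d →ₗ[ℝ] E d →ₗ[ℝ] ℝ) (P : Set (E d)) : Prop :=
  ∀ x ∈ P, ∀ y ∈ P, Touch x y → B (x - y) (x - y) = 0

/-- The bilinear form `B` is symmetric. -/
def Symm {d : ℕ} (B : E d →ₗ[ℝ] E d →ₗ[ℝ] ℝ) : Prop := ∀ x y, B x y = B y x

end Pool.Agent.W_28d874_h69
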