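import Pool.Agent.W_28d874_h69.GapA
import Pool.Agent.W_28d874_h69.FormB
import Pool.Agent.W_28d874_h69.Image

namespace Pool.Agent.W_28d874_h69

open Metric Set Filter Topology Pool.Agent.W_28d874_h30

variable {d : ℕ}

/-- Openness. By `packQ_pos` and `exists_sqrt` there is a linear `A` with `‖A w‖² = QF B t w`. For
touching `x, y` we have `QF B t (x - y) = ‖x - y‖² = 4` (`touch_iff`, `isPacking_iff`, flatness), so
`image_maximal` applies and with `unifGap` (for the maximal packing `A '' P`) we get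
`(2 + ε)² ≤ QF B t (x - y)` for different nontouching `x, y ∈ P`. Let `c` be from `pos_bound` and `C`
from `form_bound`. For `0 ≤ s ≤ δ`: `QF B (t+s) w = QF B t w + s B w w ≥ QF B t w - s C ‖w‖² ≥
QF B t w (1 - s C / c)`, which for nontouching pairs is at least `(2+ε)² (1 - δ C / c) ≥ 4` if `δ` is
small; for touching pairs `QF B (t+s) (x-y) = 4`. -/
lemma packQ_open {P : Set (E d)} (hP : IsMaximal P) {B : E d →ₗ[ℝ] E d →ₗ[ℝ] ℝ} (hB : Symm B)
    (hF : Flat B P) {t : ℝ} (h : PackQ B P t) :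
    ∃ δ : ℝ, 0 < δ ∧ ∀ s : ℝ, 0 ≤ s → s ≤ δ → PackQ B P (t + s) := by
  have hpos := packQ_pos hP hB h
  have hnn : ∀ w : E d, 0 ≤ QF B t w := by
    intro w
    by_cases hw : w = 0
    · rw [hw]
      simp [QF]
    · exact (hpos w hw).le
  obtain ⟨A, hA⟩ := exists_sqrt B hB t hnn
  have h1 : ∀ x ∈ P, ∀ y ∈ P, x ≠ y → 2 ≤ ‖A (x - y)‖ := by
    intro x hx y hy hxy
    have h3 := h x hx y hy hxy
    rw [← hA] at h3
    nlinarith [norm_nonneg (A (x - y))]
  have h2 : ∀ x ∈ P, ∀ y ∈ P, Touch x y → ‖A (x - y)‖ = 2 := by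
    intro x hx y hy hxy
    have h3 := touch_iff.1 hxy
    have h4 := isPacking_iff.1 hP.2.1 x hx y hy h3.1
    have h5 : ‖x - y‖ = 2 := by
      rw [← dist_eq_norm]
      exact le_antisymm h3.2 h4
    have h6 := hA (x - y)
    rw [QF, hF x hx y hy hxy, h5] at h6
    nlinarith [norm_nonneg (A (x - y))]
  obtain ⟨hm, hnt⟩ := image_maximal hP A h1 h2
  obtain ⟨ε, hε, hgap⟩ := unifGap (d := d)
  obtain ⟨c, hc, hcb⟩ := pos_bound hpos
  obtain ⟨C, hC, hCb⟩ := form_bound B
  have hfar : ∀ x ∈ P, ∀ y ∈ P, x ≠ y → ¬ Touch x y → (2 + ε) ^ 2 ≤ QF B t (x - y) := by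
    intro x hx y hy hxy hn
    have h3 : A x ≠ A y := by
      intro h4
      have h5 := h1 x hx y hy hxy
      rw [map_sub, h4, sub_self, norm_zero] at h5
      linarith
    have h4 := hgap (A '' P) hm (A x) (mem_image_of_mem A hx) (A y) (mem_image_of_mem A hy) h3
      (hnt x hx y hy hxy hn)
    rw [dist_eq_norm, ← map_sub] at h4
    rw [← hA]
    exact pow_le_pow_left₀ (by linarith) h4 2
  have h20 : (0 : ℝ) < (2 + ε) ^ 2 := by positivity
  set κ : ℝ := 1 - 4 / (2 + ε) ^ 2 with hκ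
  have hκ0 : 0 < κ := by
    rw [hκ, sub_pos, div_lt_one h20]
    nlinarith
  refine ⟨c * κ / (C + 1), by positivity, ?_⟩
  intro s hs0 hs x hx y hy hxy
  have hsum : QF B (t + s) (x - y) = QF B t (x - y) + s * B (x - y) (x - y) := by
    unfold QF
    ring
  rw [hsum]
  by_cases ht : Touch x y
  · rw [hF x hx y hy ht, mul_zero, add_zero]
    exact h x hx y hy hxy
  · have hq := hfar x hx y hy hxy ht
    set w := x - y with hw
    have h3 := hcb w
    have h4 := hCb w w
    have h5 : -(C * ‖w‖ ^ 2) ≤ B w w := by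
      have h6 := neg_abs_le (B w w)
      nlinarith
    have hn2 : 0 ≤ ‖w‖ ^ 2 := sq_nonneg _
    have h6 : s * (C * ‖w‖ ^ 2) ≤ κ * QF B t w := by
      have h7 : s * (C * ‖w‖ ^ 2) ≤ c * κ / (C + 1) * (C * ‖w‖ ^ 2) :=
        mul_le_mul_of_nonneg_right hs (mul_nonneg hC hn2)
      have h8 : c * κ / (C + 1) * (C * ‖w‖ ^ 2) ≤ κ * (c * ‖w‖ ^ 2) := by
        have h9 : c * κ / (C + 1) * C ≤ κ * c := by
          rw [div_mul_eq_mul_div, div_le_iff₀ (by linarith)]
          nlinarith [mul_pos hc hκ0]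
        nlinarith [mul_le_mul_of_nonneg_right h9 hn2]
      have h10 : κ * (c * ‖w‖ ^ 2) ≤ κ * QF B t w := mul_le_mul_of_nonneg_left h3 hκ0.le
      linarith
    have h7 : -(κ * QF B t w) ≤ s * B w w := by
      have h8 := mul_le_mul_of_nonneg_left h5 hs0
      linarith
    have h8 : (1 - κ) * (2 + ε) ^ 2 = 4 := by
      rw [hκ]
      field_simp
      ring
    have h9 : 0 ≤ 1 - κ := by
      rw [hκ]
      have : 0 ≤ 4 / (2 + ε) ^ 2 := by positivity
      linarith
    have h10 := mul_le_mul_of_nonneg_left hq h9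
    linarith

end Pool.Agent.W_28d874_h69
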