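import Pool.Agent.W_28d874_h69.OpenA

namespace Pool.Agent.W_28d874_h69

open Metric Set Filter Topology Pool.Agent.W_28d874_h30

variable {d : ℕ}

private lemma Perfect_neg {P : Set (E d)} (hP : IsMaximal P) {B : E d →ₗ[ℝ] E d →ₗ[ℝ] ℝ}
    (hB : Symm B) (hF : Flat B P) {w : E d} (hw : B w w < 0) : False := by
  have hw0 : w ≠ 0 := by
    rintro rfl
    simp at hw
  set S : Set ℝ := {t | 0 ≤ t ∧ ∀ s, 0 ≤ s → s ≤ t → PackQ B P s} with hS
  have h0 : PackQ B P 0 := by
    intro x hx y hy hxy
    have h := isPacking_iff.1 hP.2.1 x hx y hy hxy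
    rw [dist_eq_norm] at h
    unfold QF
    nlinarith
  have h0S : (0 : ℝ) ∈ S := by
    refine ⟨le_rfl, fun s h1 h2 => ?_⟩
    have : s = 0 := le_antisymm h2 h1
    rwa [this]
  have hbd : BddAbove S := by
    refine ⟨‖w‖ ^ 2 / (-(B w w)), fun t ht => ?_⟩
    have h := packQ_pos hP hB (ht.2 t ht.1 le_rfl) w hw0
    unfold QF at h
    rw [le_div_iff₀ (by linarith)]
    linarith
  set T := sSup S with hT
  have hT0 : 0 ≤ T := le_csSup hbd h0S
  have hlt : ∀ s, 0 ≤ s → s < T → PackQ B P s := by
    intro s h1 h2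
    obtain ⟨t, ht, hst⟩ := exists_lt_of_lt_csSup ⟨0, h0S⟩ h2
    exact ht.2 s h1 hst.le
  have hTP : PackQ B P T := by
    rcases hT0.eq_or_lt with h | h
    · rw [← h]; exact h0
    · intro x hx y hy hxy
      have hc : IsClosed {s : ℝ | 4 ≤ QF B s (x - y)} := by
        refine isClosed_le continuous_const ?_
        unfold QF
        exact continuous_const.add (continuous_id.mul continuous_const)
      have h1 : Ico 0 T ⊆ {s : ℝ | 4 ≤ QF B s (x - y)} := fun s hs =>
        hlt s hs.1 hs.2 x hx y hy hxy
      have h2 := closure_minimal h1 hc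
      rw [closure_Ico h.ne] at h2
      exact h2 (right_mem_Icc.2 hT0)
  obtain ⟨δ, hδ, hδP⟩ := packQ_open hP hB hF hTP
  have hmem : T + δ ∈ S := by
    refine ⟨by linarith, fun s h1 h2 => ?_⟩
    rcases lt_or_ge s T with h | h
    · exact hlt s h1 h
    · have h3 := hδP (s - T) (by linarith) (by linarith)
      rwa [add_sub_cancel] at h3
  have := le_csSup hbd hmem
  linarith

/-- Maximal packings are perfect. Suppose `B w w < 0` for some `w` (otherwise replace `B` by `-B`; if
`B w w = 0` for all `w` then `B = 0` by polarization). Let `S` be the set of `t ≥ 0` with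
`PackQ B P s` for all `s ∈ [0, t]`. It contains `0` (`QF B 0 w = ‖w‖²`, `isPacking_iff`) and is
bounded above, because `PackQ B P t` implies `0 < QF B t w = ‖w‖² + t B w w` (`packQ_pos`). Let
`T = sSup S`. For `s < T` we have `PackQ B P s`, and by continuity (an affine function of `s`)
`PackQ B P T`. By `packQ_open` there is `δ > 0` with `PackQ B P (T + s)` for `0 ≤ s ≤ δ`, so
`T + δ ∈ S`, a contradiction. -/
lemma perfect {P : Set (E d)} (hP : IsMaximal P) {B : E d →ₗ[ℝ] E d →ₗ[ℝ] ℝ} (hB : Symm B)
    (hF : Flat B P) : B = 0 := by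
  have hd : ∀ w : E d, B w w = 0 := by
    intro w
    rcases lt_trichotomy (B w w) 0 with h | h | h
    · exact (Perfect_neg hP hB hF h).elim
    · exact h
    · have hB' : Symm (-B) := by
        intro x y
        simp only [LinearMap.neg_apply]
        rw [hB x y]
      have hF' : Flat (-B) P := by
        intro x hx y hy hxy
        simp only [LinearMap.neg_apply]
        rw [hF x hx y hy hxy, neg_zero]
      refine (Perfect_neg hP hB' hF' (w := w) ?_).elim
      simp only [LinearMap.neg_apply]
      linarith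
  ext x y
  have h1 := hd (x + y)
  simp only [map_add, LinearMap.add_apply] at h1
  rw [hd x, hd y, hB y x] at h1
  have h2 : B x y = 0 := by linarith
  simpa using h2

end Pool.Agent.W_28d874_h69
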